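import Mathlib

/-!
Two combinatorial lemmas: Ramsey and greedy independent sets.
-/

set_option autoImplicit false

open Finset

namespace Pool.Agent.Helper55.RD

/-- Ramsey numbers (upper bounds) -/
def ram : ℕ → ℕ → ℕ
  | 0, _ => 0
  | _ + 1, 0 => 0
  | m + 1, n + 1 => ram m (n + 1) + ram (m + 1) n + 1

lemma ram_zero_right (m : ℕ) : ram m 0 = 0 := by cases m <;> simp [ram]

theorem ramsey {ι : Type*} [DecidableEq ι] (P : ι → ι → Prop) (hsym : ∀ i j, P i j → P j i) :
    ∀ (m n : ℕ) (T : Finset ι), ram m n ≤ T.card →
      (∃ A ⊆ T, A.card = m ∧ ∀ i ∈ A, ∀ j ∈ A, i ≠ j → P i j) ∨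
      (∃ B ⊆ T, B.card = n ∧ ∀ i ∈ B, ∀ j ∈ B, i ≠ j → ¬ P i j) := by
  classical
  intro m
  induction m with
  | zero =>
    intro n T _
    exact Or.inl ⟨∅, empty_subset _, card_empty, by simp⟩
  | succ m ihm =>
    intro n
    induction n with
    | zero =>
      intro T _
      exact Or.inr ⟨∅, empty_subset _, card_empty, by simp⟩
    | succ n ihn =>
      intro T hT
      rw [ram] at hT
      obtain ⟨t, ht⟩ : T.Nonempty := card_pos.1 (by omega)
      have h1 : ((T.erase t).filter fun i => P t i).card +
          ((T.erase t).filter fun i => ¬ P t i).card = T.card - 1 := by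
        rw [card_filter_add_card_filter_not, card_erase_of_mem ht]
      by_cases h2 : ram m (n + 1) ≤ ((T.erase t).filter fun i => P t i).card
      · rcases ihm (n + 1) _ h2 with ⟨A, hA, hAc, hAP⟩ | ⟨B, hB, hBc, hBP⟩
        · have htA : t ∉ A := fun h => by
            have := hA h
            simp at this
          refine Or.inl ⟨insert t A, ?_, by rw [card_insert_of_notMem htA, hAc], ?_⟩
          · intro i hi
            rcases mem_insert.1 hi with rfl | hi
            · exact ht
            · exact mem_of_mem_erase (mem_filter.1 (hA hi)).1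
          · intro i hi j hj hij
            rcases mem_insert.1 hi with hi' | hi'
            · rcases mem_insert.1 hj with hj' | hj'
              · exact absurd (hi'.trans hj'.symm) hij
              · rw [hi']; exact (mem_filter.1 (hA hj')).2
            · rcases mem_insert.1 hj with hj' | hj'
              · rw [hj']; exact hsym _ _ (mem_filter.1 (hA hi')).2
              · exact hAP i hi' j hj' hij
        · exact Or.inr ⟨B, fun i hi => mem_of_mem_erase (mem_filter.1 (hB hi)).1, hBc, hBP⟩
      · have h3 : ram (m + 1) n ≤ ((T.erase t).filter fun i => ¬ P t i).card := by omega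
        rcases ihn _ h3 with ⟨A, hA, hAc, hAP⟩ | ⟨B, hB, hBc, hBP⟩
        · exact Or.inl ⟨A, fun i hi => mem_of_mem_erase (mem_filter.1 (hA hi)).1, hAc, hAP⟩
        · have htB : t ∉ B := fun h => by
            have := hB h
            simp at this
          refine Or.inr ⟨insert t B, ?_, by rw [card_insert_of_notMem htB, hBc], ?_⟩
          · intro i hi
            rcases mem_insert.1 hi with rfl | hi
            · exact ht
            · exact mem_of_mem_erase (mem_filter.1 (hB hi)).1
          · intro i hi j hj hij
            rcases mem_insert.1 hi with hi' | hi'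
            · rcases mem_insert.1 hj with hj' | hj'
              · exact absurd (hi'.trans hj'.symm) hij
              · rw [hi']; exact (mem_filter.1 (hB hj')).2
            · rcases mem_insert.1 hj with hj' | hj'
              · rw [hj']; exact fun h => (mem_filter.1 (hB hi')).2 (hsym _ _ h)
              · exact hBP i hi' j hj' hij

theorem greedy {ι : Type*} [DecidableEq ι] (Bad : ι → ι → Prop) [DecidableRel Bad]
    (hsym : ∀ i j, Bad i j → Bad j i)
    (C : Finset ι) (d : ℕ) (hdeg : ∀ j ∈ C, (C.filter fun i => Bad i j).card ≤ d) :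
    ∀ D : ℕ, (d + 1) * D ≤ C.card → ∃ B ⊆ C, B.card = D ∧ ∀ i ∈ B, ∀ j ∈ B, i ≠ j → ¬ Bad i j := by
  intro D
  induction D with
  | zero => intro _; exact ⟨∅, empty_subset _, card_empty, by simp⟩
  | succ D ih =>
    intro hD
    obtain ⟨B, hB, hBc, hBP⟩ := ih (by rw [mul_add] at hD; omega)
    have h1 : (B.biUnion fun j => insert j (C.filter fun i => Bad i j)).card ≤ D * (d + 1) := by
      rw [← hBc]
      refine card_biUnion_le_card_mul _ _ _ fun j hj => ?_
      exact (card_insert_le _ _).trans (Nat.add_le_add_right (hdeg j (hB hj)) 1)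
    obtain ⟨t, ht, ht2⟩ : ∃ t ∈ C, t ∉ B.biUnion fun j => insert j (C.filter fun i => Bad i j) := by
      by_contra hcon
      push Not at hcon
      have h2 := card_le_card (show C ⊆ _ from hcon)
      rw [mul_add, mul_comm] at hD
      omega
    rw [mem_biUnion] at ht2
    push Not at ht2
    have h3 : ∀ j ∈ B, t ≠ j ∧ ¬ Bad t j := by
      intro j hj
      have := ht2 j hj
      rw [mem_insert, not_or, mem_filter, not_and] at this
      exact ⟨this.1, this.2 ht⟩
    have htB : t ∉ B := fun h => (h3 t h).1 rfl
    refine ⟨insert t B, insert_subset ht hB, by rw [card_insert_of_notMem htB, hBc], ?_⟩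
    intro i hi j hj hij
    rcases mem_insert.1 hi with hi' | hi'
    · rcases mem_insert.1 hj with hj' | hj'
      · exact absurd (hi'.trans hj'.symm) hij
      · rw [hi']; exact (h3 j hj').2
    · rcases mem_insert.1 hj with hj' | hj'
      · rw [hj']; exact fun h => (h3 i hi').2 (hsym _ _ h)
      · exact hBP i hi' j hj' hij

end Pool.Agent.Helper55.RD
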