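import Mathlib

/-!
Binary forms, given by a polynomial in one variable and a formal degree: evaluation, composition,
and the resultant of a composition.
-/

set_option autoImplicit false

open Polynomial Finset

namespace Pool.Agent.Helper55.RD

section hom

variable {R A B : Type*} [CommRing R] [CommRing A] [Algebra R A] [CommRing B] [Algebra R B]

/-- the value at `(a, b)` of the form of degree `n` given by `f` -/
noncomputable def hom (n : ℕ) (f : R[X]) (a b : A) : A :=
  ∑ kl ∈ antidiagonal n, algebraMap R A (f.coeff kl.1) * a ^ kl.1 * b ^ kl.2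

lemma hom_eq_aeval (n : ℕ) (f : R[X]) (a b : A) :
    hom n f a b = MvPolynomial.aeval ![a, b] (f.homogenize n) := by
  rw [homogenize, map_sum, hom]
  refine sum_congr rfl fun kl _ => ?_
  rw [MvPolynomial.aeval_monomial]
  rw [Finsupp.prod_fintype _ _ (by simp)]
  simp [Fin.prod_univ_two, mul_assoc, Finsupp.update_apply]

lemma hom_mul {m n : ℕ} {f g : R[X]} (hf : f.natDegree ≤ m) (hg : g.natDegree ≤ n) (a b : A) :
    hom (m + n) (f * g) a b = hom m f a b * hom n g a b := by
  rw [hom_eq_aeval, hom_eq_aeval, hom_eq_aeval, homogenize_mul f g hf hg, map_mul]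

lemma hom_add (n : ℕ) (f g : R[X]) (a b : A) : hom n (f + g) a b = hom n f a b + hom n g a b := by
  simp only [hom, coeff_add, map_add, add_mul, sum_add_distrib]

lemma hom_C_mul (n : ℕ) (c : R) (f : R[X]) (a b : A) :
    hom n (C c * f) a b = algebraMap R A c * hom n f a b := by
  simp only [hom, coeff_C_mul, map_mul, mul_sum, mul_assoc]

lemma hom_neg (n : ℕ) (f : R[X]) (a b : A) : hom n (-f) a b = - hom n f a b := by
  simp [hom]

lemma hom_sub (n : ℕ) (f g : R[X]) (a b : A) : hom n (f - g) a b = hom n f a b - hom n g a b := by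
  rw [sub_eq_add_neg, hom_add, hom_neg, sub_eq_add_neg]

lemma hom_zero (n : ℕ) (a b : A) : hom n (0 : R[X]) a b = 0 := by simp [hom]

lemma hom_sum {ι : Type*} (n : ℕ) (s : Finset ι) (f : ι → R[X]) (a b : A) :
    hom n (∑ i ∈ s, f i) a b = ∑ i ∈ s, hom n (f i) a b := by
  classical
  induction s using Finset.induction_on with
  | empty => simp [hom_zero]
  | insert i s hi ih => rw [sum_insert hi, sum_insert hi, hom_add, ih]

lemma hom_zero_deg (f : R[X]) (a b : A) : hom 0 f a b = algebraMap R A (f.coeff 0) := by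
  simp [hom]

lemma hom_one_deg (f : R[X]) (a b : A) :
    hom 1 f a b = algebraMap R A (f.coeff 1) * a + algebraMap R A (f.coeff 0) * b := by
  rw [hom, Nat.antidiagonal_succ]
  simp
  ring

lemma hom_pow {m : ℕ} {f : R[X]} (hf : f.natDegree ≤ m) (k : ℕ) (a b : A) :
    hom (k * m) (f ^ k) a b = hom m f a b ^ k := by
  induction k with
  | zero =>
    simp [hom_zero_deg]
  | succ k ih =>
    have h1 : (f ^ k).natDegree ≤ k * m := natDegree_pow_le_of_le k hf
    rw [pow_succ, add_mul, one_mul, hom_mul h1 hf, ih, pow_succ]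

lemma algHom_hom (φ : A →ₐ[R] B) (n : ℕ) (f : R[X]) (a b : A) :
    φ (hom n f a b) = hom n f (φ a) (φ b) := by
  simp [hom, map_sum]

lemma hom_smul_smul (n : ℕ) (f : R[X]) (c a b : A) :
    hom n f (c * a) (c * b) = c ^ n * hom n f a b := by
  simp only [hom, mul_sum]
  refine sum_congr rfl fun kl hkl => ?_
  rw [HasAntidiagonal.mem_antidiagonal] at hkl
  rw [mul_pow, mul_pow, ← hkl, pow_add]
  ring

lemma natDegree_hom_le {n d : ℕ} (f : R[X]) {p q : R[X]} (hp : p.natDegree ≤ d)
    (hq : q.natDegree ≤ d) : (hom n f p q).natDegree ≤ n * d := by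
  unfold hom
  refine natDegree_sum_le_of_forall_le _ _ fun kl hkl => ?_
  rw [HasAntidiagonal.mem_antidiagonal] at hkl
  have h1 : (p ^ kl.1).natDegree ≤ kl.1 * d := natDegree_pow_le_of_le _ hp
  have h2 : (q ^ kl.2).natDegree ≤ kl.2 * d := natDegree_pow_le_of_le _ hq
  have h3 : (algebraMap R R[X] (f.coeff kl.1) * p ^ kl.1).natDegree ≤ kl.1 * d := by
    rw [Polynomial.algebraMap_apply]
    exact (natDegree_C_mul_le _ _).trans h1
  refine (natDegree_mul_le_of_le h3 h2).trans (le_of_eq ?_)
  rw [← add_mul, hkl]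

/-- evaluation of a composition -/
lemma hom_hom {n d : ℕ} (f : R[X]) {p q : R[X]} (hp : p.natDegree ≤ d) (hq : q.natDegree ≤ d)
    (a b : A) : hom (n * d) (hom n f p q) a b = hom n f (hom d p a b) (hom d q a b) := by
  conv_lhs => rw [hom.eq_def n f p q, hom_sum]
  rw [hom.eq_def n f (hom d p a b)]
  refine sum_congr rfl fun kl hkl => ?_
  rw [HasAntidiagonal.mem_antidiagonal] at hkl
  have h1 : (p ^ kl.1).natDegree ≤ kl.1 * d := natDegree_pow_le_of_le _ hp
  have h2 : (q ^ kl.2).natDegree ≤ kl.2 * d := natDegree_pow_le_of_le _ hq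
  rw [← hkl, add_mul, mul_assoc, Polynomial.algebraMap_apply, Algebra.algebraMap_self_apply, hom_C_mul,
    hom_mul h1 h2, hom_pow hp, hom_pow hq]
  ring

lemma map_hom {S : Type*} [CommRing S] (φ : R →+* S) (n : ℕ) (f p q : R[X]) :
    (hom n f p q).map φ = hom n (f.map φ) (p.map φ) (q.map φ) := by
  simp [hom, Polynomial.map_sum]

end hom

end Pool.Agent.Helper55.RD
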