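import Mathlib
import Pool.Agent.Helper55.RD.Hom

/-!
The resultant of a composition of binary forms.
-/

set_option autoImplicit false

open Polynomial Finset

namespace Pool.Agent.Helper55.RD

section res

variable {R : Type*} [CommRing R]

lemma resultant_mul_left' {f₁ f₂ g : R[X]} {m₁ m₂ n : ℕ} (h₁ : f₁.natDegree ≤ m₁)
    (h₂ : f₂.natDegree ≤ m₂) (hg : g.natDegree ≤ n) :
    resultant (f₁ * f₂) g (m₁ + m₂) n = resultant f₁ g m₁ n * resultant f₂ g m₂ n := by
  obtain ⟨k₁, rfl⟩ := Nat.exists_eq_add_of_le h₁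
  obtain ⟨k₂, rfl⟩ := Nat.exists_eq_add_of_le h₂
  have h3 : f₁.natDegree + k₁ + (f₂.natDegree + k₂) =
      (f₁.natDegree + f₂.natDegree) + (k₁ + k₂) := by ring
  rw [h3, resultant_add_left_deg _ _ _ _ _ natDegree_mul_le, resultant_mul_left _ _ _ _ hg,
    resultant_add_left_deg _ _ _ _ _ le_rfl, resultant_add_left_deg _ _ _ _ _ le_rfl]
  ring

end res

section field

variable {K : Type*} [Field K]

lemma resultant_gl2 {p q : K[X]} {d : ℕ} (hp : p.natDegree ≤ d) (hq : q.natDegree ≤ d)
    (a b c e : K) :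
    resultant (C a * p + C b * q) (C c * p + C e * q) d d =
      (a * e - b * c) ^ d * resultant p q d d := by
  have hC : ∀ x : K, (C x).natDegree + d ≤ d := fun x => by simp
  by_cases ha : a = 0
  · subst ha
    rw [C_0, zero_mul, zero_add, resultant_C_mul_left]
    have h1 : C c * p + C e * q = C c * p + q * C e := by ring
    rw [h1, resultant_add_mul_right _ _ _ _ _ (hC e) hq, resultant_C_mul_right, resultant_comm,
      zero_mul, zero_sub, neg_pow (b * c), mul_pow]
    have h2 : ((-1 : K)) ^ (d * d) = (-1) ^ d := by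
      rcases Nat.even_or_odd d with h | h
      · rw [(h.mul_left d).neg_one_pow, h.neg_one_pow]
      · rw [(h.mul h).neg_one_pow, h.neg_one_pow]
    rw [h2]
    ring
  · have h1 : C c * p + C e * q =
        C ((a * e - b * c) / a) * q + (C a * p + C b * q) * C (c / a) := by
      have h2 : C c = C a * C (c / a) := by rw [← C_mul, mul_div_cancel₀ _ ha]
      have h3 : C e = C ((a * e - b * c) / a) + C b * C (c / a) := by
        rw [← C_mul, ← C_add]
        congr 1
        field_simp
        ring
      rw [h3, h2]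
      ring
    have h4 : (C a * p + C b * q).natDegree ≤ d :=
      natDegree_add_le_of_degree_le ((natDegree_C_mul_le _ _).trans hp)
        ((natDegree_C_mul_le _ _).trans hq)
    rw [h1, resultant_add_mul_right _ _ _ _ _ (hC _) h4, resultant_C_mul_right]
    have h5 : C a * p + C b * q = C a * p + q * C b := by ring
    rw [h5, resultant_add_mul_left _ _ _ _ _ (hC b) hq, resultant_C_mul_left, ← mul_assoc,
      ← mul_pow, div_mul_cancel₀ _ ha]

lemma eq_of_natDegree_le_one {f : K[X]} (hf : f.natDegree ≤ 1) :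
    f = C (f.coeff 1) * X + C (f.coeff 0) * 1 := by
  rw [mul_one]
  exact eq_X_add_C_of_natDegree_le_one hf

lemma resultant_one_one {f g : K[X]} (hf : f.natDegree ≤ 1) (hg : g.natDegree ≤ 1) :
    resultant f g 1 1 = f.coeff 1 * g.coeff 0 - f.coeff 0 * g.coeff 1 := by
  have h := resultant_gl2 (p := (X : K[X])) (q := 1) (d := 1) (natDegree_X_le) (by simp)
    (f.coeff 1) (f.coeff 0) (g.coeff 1) (g.coeff 0)
  rw [← eq_of_natDegree_le_one hf, ← eq_of_natDegree_le_one hg] at h
  rw [h]
  simp

/-- the composition formula, as a property of a pair of forms -/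
def Comp (m : ℕ) (f : K[X]) (n : ℕ) (g : K[X]) : Prop :=
  ∀ (d : ℕ) (p q : K[X]), p.natDegree ≤ d → q.natDegree ≤ d →
    resultant (hom m f p q) (hom n g p q) (m * d) (n * d) =
      resultant f g m n ^ d * resultant p q d d ^ (m * n)

lemma neg_one_pow_mul_self (a d : ℕ) : ((-1 : K)) ^ (a * (d * d)) = (-1) ^ (a * d) := by
  rcases Nat.even_or_odd d with h | h
  · rw [((h.mul_left d).mul_left a).neg_one_pow, (h.mul_left a).neg_one_pow]
  · rw [mul_comm a, pow_mul, (h.mul h).neg_one_pow, mul_comm a, pow_mul, h.neg_one_pow]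

lemma Comp.symm {m n : ℕ} {f g : K[X]} (h : Comp m f n g) : Comp n g m f := by
  intro d p q hp hq
  rw [resultant_comm, h d p q hp hq, resultant_comm g f, mul_pow, ← pow_mul]
  have h1 : n * d * (m * d) = (n * m) * (d * d) := by ring
  rw [h1, neg_one_pow_mul_self, mul_comm m n]
  ring

lemma Comp.mul {m₁ m₂ n : ℕ} {f₁ f₂ g : K[X]} (h₁ : Comp m₁ f₁ n g) (h₂ : Comp m₂ f₂ n g)
    (hf₁ : f₁.natDegree ≤ m₁) (hf₂ : f₂.natDegree ≤ m₂) (hg : g.natDegree ≤ n) :
    Comp (m₁ + m₂) (f₁ * f₂) n g := by
  intro d p q hp hq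
  rw [hom_mul hf₁ hf₂, add_mul,
    resultant_mul_left' (natDegree_hom_le f₁ hp hq) (natDegree_hom_le f₂ hp hq)
      (natDegree_hom_le g hp hq), h₁ d p q hp hq, h₂ d p q hp hq,
    resultant_mul_left' hf₁ hf₂ hg, add_mul, pow_add]
  ring

lemma comp_zero (n : ℕ) (f g : K[X]) : Comp 0 f n g := by
  intro d p q _ _
  rw [zero_mul, hom_zero_deg, resultant_zero_left_deg, resultant_zero_left_deg, zero_mul, pow_zero,
    mul_one, ← pow_mul]
  simp

lemma comp_one_one {f g : K[X]} (hf : f.natDegree ≤ 1) (hg : g.natDegree ≤ 1) : Comp 1 f 1 g := by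
  intro d p q hp hq
  rw [hom_one_deg, hom_one_deg, one_mul, resultant_one_one hf hg, mul_one, pow_one]
  exact resultant_gl2 hp hq _ _ _ _

/-- over an algebraically closed field, a form is a product of linear forms -/
lemma comp_of_linear [IsAlgClosed K] {n : ℕ} {g : K[X]} (hg : g.natDegree ≤ n)
    (h : ∀ f : K[X], f.natDegree ≤ 1 → Comp 1 f n g) :
    ∀ (m : ℕ) (f : K[X]), f.natDegree ≤ m → Comp m f n g := by
  intro m
  induction m with
  | zero => intro f _; exact comp_zero n f g
  | succ m ih =>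
    intro f hf
    by_cases h1 : f.natDegree ≤ m
    · have h2 := Comp.mul (ih f h1) (h 1 (by simp)) h1 (by simp) hg
      rwa [mul_one] at h2
    · have h2 : f.natDegree = m + 1 := by omega
      obtain ⟨r, hr⟩ := IsAlgClosed.exists_root f (by
        intro h3
        have h4 : f.natDegree = 0 := natDegree_eq_of_degree_eq_some h3
        rw [h4] at h2
        exact absurd h2 (by simp))
      obtain ⟨f', hf'⟩ := dvd_iff_isRoot.2 hr
      have hf0 : f ≠ 0 := by rintro rfl; simp at h2
      have hf'0 : f' ≠ 0 := by rintro rfl; simp at hf'; exact hf0 hf'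
      have h3 : f'.natDegree = m := by
        rw [hf', natDegree_mul (X_sub_C_ne_zero r) hf'0, natDegree_X_sub_C] at h2
        omega
      have h4 := Comp.mul (ih f' h3.le) (h (X - C r) (by simp)) h3.le (by simp) hg
      rwa [mul_comm, ← hf'] at h4

lemma comp_of_isAlgClosed [IsAlgClosed K] {m n : ℕ} {f g : K[X]} (hf : f.natDegree ≤ m)
    (hg : g.natDegree ≤ n) : Comp m f n g := by
  refine comp_of_linear hg (fun f hf => ?_) m f hf
  exact (comp_of_linear hf (fun g hg => comp_one_one hg hf) n g hg).symm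

/-- **Resultant of a composition.** -/
theorem resultant_hom {m n d : ℕ} {f g p q : K[X]} (hf : f.natDegree ≤ m) (hg : g.natDegree ≤ n)
    (hp : p.natDegree ≤ d) (hq : q.natDegree ≤ d) :
    resultant (hom m f p q) (hom n g p q) (m * d) (n * d) =
      resultant f g m n ^ d * resultant p q d d ^ (m * n) := by
  apply (algebraMap K (AlgebraicClosure K)).injective
  have h : ∀ {a : ℕ} {u : K[X]}, u.natDegree ≤ a →
      (u.map (algebraMap K (AlgebraicClosure K))).natDegree ≤ a := fun hu =>
    natDegree_map_le.trans hu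
  rw [map_mul, map_pow, map_pow, ← resultant_map_map, ← resultant_map_map, ← resultant_map_map,
    map_hom, map_hom]
  exact comp_of_isAlgClosed (h hf) (h hg) d _ _ (h hp) (h hq)

end field

end Pool.Agent.Helper55.RD
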