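import Mathlib
import Pool.Agent.Helper33.DVBasic
import Pool.Agent.Helper55.RD.Res

/-!
Valuations of determinants; Vandermonde times Sylvester.
-/

set_option autoImplicit false

open Polynomial Finset Pool.Agent.Helper33

namespace Pool.Agent.Helper55.RD

section val

variable {K : Type*} [Field K] {v : DV K}

lemma ge_prod {ι : Type*} (s : Finset ι) (f : ι → K) (c : ι → ℝ) (h : ∀ i ∈ s, v.ge (c i) (f i)) :
    v.ge (∑ i ∈ s, c i) (∏ i ∈ s, f i) := by
  classical
  induction s using Finset.induction_on with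
  | empty => simpa using DV.ge_one
  | insert a s ha ih =>
    rw [sum_insert ha, prod_insert ha]
    exact DV.ge_mul (h a (mem_insert_self a s)) (ih fun i hi => h i (mem_insert_of_mem hi))

lemma ge_sign {c : ℝ} {x : K} {n : Type*} [Fintype n] [DecidableEq n] (σ : Equiv.Perm n)
    (h : v.ge c x) : v.ge c (((Equiv.Perm.sign σ : ℤˣ) : ℤ) * x : K) := by
  rcases Int.units_eq_one_or (Equiv.Perm.sign σ) with h1 | h1
  · rw [h1]; simpa using h
  · rw [h1]; simpa using DV.ge_neg h

lemma ge_det {n : Type*} [Fintype n] [DecidableEq n] (M : Matrix n n K) (c : n → ℝ)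
    (h : ∀ i j, v.ge (c j) (M i j)) : v.ge (∑ j, c j) M.det := by
  rw [Matrix.det_apply']
  exact DV.ge_sum _ _ fun σ _ => ge_sign σ (ge_prod _ _ _ fun i _ => h (σ i) i)

lemma ge_det_zero {n : Type*} [Fintype n] [DecidableEq n] (M : Matrix n n K)
    (h : ∀ i j, v.ge 0 (M i j)) : v.ge 0 M.det := by
  have := ge_det M (fun _ => 0) h
  simpa using this

lemma ge_adjugate {n : Type*} [Fintype n] [DecidableEq n] (M : Matrix n n K)
    (h : ∀ i j, v.ge 0 (M i j)) (i j : n) : v.ge 0 (M.adjugate i j) := by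
  rw [Matrix.adjugate_apply]
  refine ge_det_zero _ fun a b => ?_
  rw [Matrix.updateRow_apply]
  split_ifs
  · rw [Pi.single_apply]
    split_ifs
    · exact DV.ge_one
    · exact DV.ge_zero 0
  · exact h a b

lemma exists_le_of_sum {ι : Type*} (v : DV K) (s : Finset ι) (f : ι → K) (h : ∑ i ∈ s, f i ≠ 0) :
    ∃ i ∈ s, f i ≠ 0 ∧ v.o (f i) ≤ v.o (∑ i ∈ s, f i) := by
  by_contra hcon
  push Not at hcon
  have h1 : v.ge (v.o (∑ i ∈ s, f i) + 1 : ℝ) (∑ i ∈ s, f i) := by
    refine DV.ge_sum _ _ fun i hi => ?_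
    by_cases h0 : f i = 0
    · exact Or.inl h0
    · have := hcon i hi h0
      right
      exact_mod_cast this
  have h2 := DV.ge_le h1 h
  linarith

end val

section vand

variable {R : Type*} [CommRing R]

lemma shift_sum {N m n : ℕ} (hN : N = m + n) (j : ℕ) (hj : j < m) (c : ℕ → R) (a b : R) :
    ∑ k ∈ range N, a ^ k * b ^ (N - (k + 1)) * (if j ≤ k ∧ k ≤ j + n then c (k - j) else 0) =
      a ^ j * b ^ (m - (j + 1)) * ∑ kl ∈ HasAntidiagonal.antidiagonal n, c kl.1 * a ^ kl.1 * b ^ kl.2 := by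
  subst hN
  rw [Finset.Nat.sum_antidiagonal_eq_sum_range_succ_mk, mul_sum]
  symm
  refine sum_bij_ne_zero (fun k _ _ => j + k) ?_ ?_ ?_ ?_
  · intro k hk _
    rw [mem_range] at hk ⊢
    omega
  · intro k₁ _ _ k₂ _ _ h
    omega
  · intro k hk hne
    have h1 : j ≤ k ∧ k ≤ j + n := by
      by_contra h
      rw [if_neg h, mul_zero] at hne
      exact hne rfl
    refine ⟨k - j, by rw [mem_range]; omega, ?_, by omega⟩
    rw [if_pos h1] at hne
    intro h
    apply hne
    rw [← h]
    have e1 : k = j + (k - j) := by omega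
    have e2 : m + n - (k + 1) = (m - (j + 1)) + (n - (k - j)) := by omega
    rw [e2, pow_add]
    conv_lhs => rw [e1, pow_add]
    simp only [Nat.add_sub_cancel_left]
    ring
  · intro k hk _
    rw [mem_range] at hk
    rw [if_pos ⟨by omega, by omega⟩]
    have e2 : m + n - (j + k + 1) = (m - (j + 1)) + (n - k) := by omega
    rw [e2, pow_add, pow_add, Nat.add_sub_cancel_left]
    ring

/-- The row of monomials. -/
def mon {m : ℕ} (u w : R) (j : Fin m) : R := u ^ j.1 * w ^ (m - (j.1 + 1))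

lemma vand_row_mul_sylvester (f g : R[X]) (m n : ℕ) (a b : R) (j : Fin (m + n)) :
    ∑ k : Fin (m + n), (a ^ k.1 * b ^ (m + n - (k.1 + 1))) * sylvester f g m n k j =
      Fin.addCases (motive := fun _ => R) (fun j₁ => mon a b j₁ * hom n g a b)
        (fun j₁ => mon a b j₁ * hom m f a b) j := by
  refine Fin.addCases (fun j₁ => ?_) (fun j₁ => ?_) j
  · rw [Fin.addCases_left]
    simp only [sylvester, Matrix.of_apply, Fin.addCases_left, Set.mem_Icc, mon, hom]
    rw [Fin.sum_univ_eq_sum_range (fun k => a ^ k * b ^ (m + n - (k + 1)) *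
      (if j₁.1 ≤ k ∧ k ≤ j₁.1 + n then g.coeff (k - j₁.1) else 0)) (m + n)]
    rw [shift_sum rfl j₁.1 j₁.2]
    simp
  · rw [Fin.addCases_right]
    simp only [sylvester, Matrix.of_apply, Fin.addCases_right, Set.mem_Icc, mon, hom]
    rw [Fin.sum_univ_eq_sum_range (fun k => a ^ k * b ^ (m + n - (k + 1)) *
      (if j₁.1 ≤ k ∧ k ≤ j₁.1 + m then f.coeff (k - j₁.1) else 0)) (m + n)]
    rw [shift_sum (add_comm m n) j₁.1 j₁.2]
    simp

end vand

end Pool.Agent.Helper55.RD
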