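import Mathlib
import Pool.Agent.Helper55.RD.Val

/-!
The energy inequality for a pair of binary forms.
-/

set_option autoImplicit false

open Polynomial Finset Pool.Agent.Helper33

namespace Pool.Agent.Helper55.RD

variable {K : Type*} [Field K]

/-- the determinant of two vectors -/
def wedge (a b : K × K) : K := a.1 * b.2 - a.2 * b.1

lemma wedge_swap (a b : K × K) : wedge b a = - wedge a b := by
  simp only [wedge]; ring

lemma wedge_self (a : K × K) : wedge a a = 0 := by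
  simp only [wedge]; ring

open Classical in
/-- the valuation of the wedge, zero if the wedge is zero -/
noncomputable def W (v : DV K) (a b : K × K) : ℤ := if wedge a b = 0 then 0 else v.o (wedge a b)

lemma W_comm (v : DV K) (a b : K × K) : W v a b = W v b a := by
  unfold W
  by_cases h : wedge a b = 0
  · rw [if_pos h, if_pos (by rw [wedge_swap, h, neg_zero])]
  · rw [if_neg h, if_neg (by rw [wedge_swap]; exact neg_ne_zero.2 h), wedge_swap a b, v.o_neg]

lemma W_self (v : DV K) (a : K × K) : W v a a = 0 := by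
  unfold W; rw [wedge_self, if_pos rfl]

lemma W_of_ne {v : DV K} {a b : K × K} (h : wedge a b ≠ 0) : W v a b = v.o (wedge a b) := by
  unfold W; rw [if_neg h]

lemma sum_Ioi {r : ℕ} (φ : Fin r → Fin r → ℤ) (hsym : ∀ i j, φ i j = φ j i)
    (hdiag : ∀ i, φ i i = 0) : ∑ i, ∑ j, φ i j = 2 * ∑ i, ∑ j ∈ Ioi i, φ j i := by
  have h1 : ∀ i, ∑ j, φ i j = ∑ j ∈ Iio i, φ i j + ∑ j ∈ Ioi i, φ i j := by
    intro i
    have : (univ : Finset (Fin r)) = insert i (Iio i ∪ Ioi i) := by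
      ext j
      simp only [mem_univ, mem_insert, mem_union, mem_Iio, mem_Ioi, true_iff]
      rcases lt_trichotomy j i with h | h | h
      · exact Or.inr (Or.inl h)
      · exact Or.inl h
      · exact Or.inr (Or.inr h)
    rw [this, sum_insert (by simp), hdiag, zero_add, sum_union]
    rw [disjoint_left]
    intro j hj hj'
    rw [mem_Iio] at hj
    rw [mem_Ioi] at hj'
    exact lt_asymm hj hj'
  rw [sum_congr rfl (fun i _ => h1 i), sum_add_distrib]
  have h2 : ∑ i, ∑ j ∈ Iio i, φ i j = ∑ i, ∑ j ∈ Ioi i, φ j i := by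
    rw [Finset.sum_sigma', Finset.sum_sigma']
    apply sum_nbij' (fun x => ⟨x.2, x.1⟩) (fun x => ⟨x.2, x.1⟩)
    · rintro ⟨i, j⟩ h
      simp only [mem_sigma, mem_univ, mem_Iio, true_and] at h
      simp only [mem_sigma, mem_univ, mem_Ioi, true_and]
      exact h
    · rintro ⟨i, j⟩ h
      simp only [mem_sigma, mem_univ, mem_Ioi, true_and] at h
      simp only [mem_sigma, mem_univ, mem_Iio, true_and]
      exact h
    · rintro ⟨i, j⟩ _; rfl
    · rintro ⟨i, j⟩ _; rfl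
    · rintro ⟨i, j⟩ _; rfl
  have h3 : ∑ i, ∑ j ∈ Ioi i, φ i j = ∑ i, ∑ j ∈ Ioi i, φ j i :=
    sum_congr rfl fun i _ => sum_congr rfl fun j _ => hsym i j
  rw [h2, h3]
  ring

/-- the matrix of monomials of degree `n - 1` at `n` points -/
def PV {n : ℕ} (y : Fin n → K × K) : Matrix (Fin n) (Fin n) K :=
  Matrix.projVandermonde (fun i => (y i).1) (fun i => (y i).2)

lemma PV_apply {n : ℕ} (y : Fin n → K × K) (i j : Fin n) :
    PV y i j = mon (y i).1 (y i).2 j := by
  simp [PV, Matrix.projVandermonde_apply, mon, Fin.val_rev]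

lemma det_PV (v : DV K) {n : ℕ} (y : Fin n → K × K) (hy : ∀ i j, i ≠ j → wedge (y i) (y j) ≠ 0) :
    (PV y).det ≠ 0 ∧ 2 * v.o (PV y).det = ∑ i, ∑ j, W v (y i) (y j) := by
  have hdet : (PV y).det = ∏ i, ∏ j ∈ Ioi i, wedge (y j) (y i) := by
    rw [PV, Matrix.det_projVandermonde]
    refine prod_congr rfl fun i _ => prod_congr rfl fun j _ => ?_
    simp only [wedge]; ring
  have hne : ∀ i : Fin n, ∀ j ∈ Ioi i, wedge (y j) (y i) ≠ 0 := fun i j hj =>
    hy j i (ne_of_gt (mem_Ioi.1 hj))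
  have hne2 : ∀ i ∈ (univ : Finset (Fin n)), ∏ j ∈ Ioi i, wedge (y j) (y i) ≠ 0 :=
    fun i _ => prod_ne_zero_iff.2 (hne i)
  rw [hdet]
  refine ⟨prod_ne_zero_iff.2 hne2, ?_⟩
  rw [v.o_prod _ _ hne2, sum_Ioi (fun i j => W v (y i) (y j)) (fun i j => W_comm v _ _)
    (fun i => W_self v _)]
  congr 1
  refine sum_congr rfl fun i _ => ?_
  rw [v.o_prod _ _ (hne i)]
  exact sum_congr rfl fun j hj => (W_of_ne (hne i j hj)).symm

section split

variable {D : ℕ}

/-- the left part of the rows -/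
noncomputable def Lrow (g : K[X]) (y : Fin (D + D) → K × K) (i j : Fin (D + D)) : K :=
  Fin.addCases (motive := fun _ => K) (fun j₁ => mon (y i).1 (y i).2 j₁ * hom D g (y i).1 (y i).2)
    (fun _ => 0) j

/-- the right part of the rows -/
noncomputable def Rrow (f : K[X]) (y : Fin (D + D) → K × K) (i j : Fin (D + D)) : K :=
  Fin.addCases (motive := fun _ => K) (fun _ => 0)
    (fun j₁ => mon (y i).1 (y i).2 j₁ * hom D f (y i).1 (y i).2) j

lemma PV_mul_sylvester (f g : K[X]) (y : Fin (D + D) → K × K) :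
    PV y * sylvester f g D D = Matrix.of (Lrow g y + Rrow f y) := by
  ext i j
  rw [Matrix.mul_apply]
  have h := vand_row_mul_sylvester f g D D (y i).1 (y i).2 j
  have h2 : ∀ k : Fin (D + D), PV y i k = (y i).1 ^ k.1 * (y i).2 ^ (D + D - (k.1 + 1)) :=
    fun k => PV_apply y i k
  simp only [h2, h]
  simp only [Matrix.of_apply, Pi.add_apply, Lrow, Rrow]
  refine Fin.addCases (fun j₁ => ?_) (fun j₁ => ?_) j
  · rw [Fin.addCases_left, Fin.addCases_left, Fin.addCases_left, add_zero]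
  · rw [Fin.addCases_right, Fin.addCases_right, Fin.addCases_right, zero_add]

/-- the determinant with the rows of `s` on the left -/
noncomputable def Ms (f g : K[X]) (y : Fin (D + D) → K × K) (s : Finset (Fin (D + D))) :
    Matrix (Fin (D + D)) (Fin (D + D)) K := Matrix.of (s.piecewise (Lrow g y) (Rrow f y))

lemma det_PV_mul_resultant (f g : K[X]) (y : Fin (D + D) → K × K) :
    (PV y).det * resultant f g D D = ∑ s : Finset (Fin (D + D)), (Ms f g y s).det := by
  rw [resultant, ← Matrix.det_mul, PV_mul_sylvester]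
  exact (Matrix.detRowAlternating (R := K) (n := Fin (D + D))).toMultilinearMap.map_add_univ
    (Lrow g y) (Rrow f y)

lemma card_of_det_ne_zero {f g : K[X]} {y : Fin (D + D) → K × K} {s : Finset (Fin (D + D))}
    (h : (Ms f g y s).det ≠ 0) : s.card = D := by
  rw [Matrix.det_apply'] at h
  obtain ⟨σ, -, hσ⟩ := exists_ne_zero_of_sum_ne_zero h
  have hprod := right_ne_zero_of_mul hσ
  rw [prod_ne_zero_iff] at hprod
  have hL : ∀ j : Fin D, σ (Fin.castAdd D j) ∈ s := by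
    intro j
    by_contra hn
    apply hprod (Fin.castAdd D j) (mem_univ _)
    simp only [Ms, Matrix.of_apply, piecewise_eq_of_notMem _ _ _ hn, Rrow, Fin.addCases_left]
  have hR : ∀ j : Fin D, σ (Fin.natAdd D j) ∉ s := by
    intro j hn
    apply hprod (Fin.natAdd D j) (mem_univ _)
    simp only [Ms, Matrix.of_apply, piecewise_eq_of_mem _ _ _ hn, Lrow, Fin.addCases_right]
  have h1 : s = univ.map ((Fin.castAddEmb D).trans σ.toEmbedding) := by
    ext i
    simp only [mem_map, mem_univ, true_and, Function.Embedding.trans_apply, Equiv.coe_toEmbedding]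
    constructor
    · intro hi
      obtain ⟨j, rfl⟩ := σ.surjective i
      induction j using Fin.addCases with
      | left j => exact ⟨j, rfl⟩
      | right j => exact absurd hi (hR j)
    · rintro ⟨j, rfl⟩
      exact hL j
  rw [h1, card_map, card_univ, Fintype.card_fin]

lemma sum_orderEmb {α : Type*} [LinearOrder α] {k : ℕ} (s : Finset α) (h : s.card = k)
    {M : Type*} [AddCommMonoid M] (φ : α → M) :
    ∑ i : Fin k, φ (s.orderEmbOfFin h i) = ∑ i ∈ s, φ i := by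
  conv_rhs => rw [← map_orderEmbOfFin_univ s h, sum_map]
  rfl

lemma o_sign (v : DV K) {n : Type*} [Fintype n] [DecidableEq n] (σ : Equiv.Perm n) (x : K) :
    v.o (((Equiv.Perm.sign σ : ℤˣ) : ℤ) * x : K) = v.o x := by
  rcases Int.units_eq_one_or (Equiv.Perm.sign σ) with h1 | h1
  · rw [h1]; simp
  · rw [h1]; simp [v.o_neg]

lemma o_det_Ms (v : DV K) {f g : K[X]} {y : Fin (D + D) → K × K}
    (hy : ∀ i j, i ≠ j → wedge (y i) (y j) ≠ 0) {s : Finset (Fin (D + D))}
    (h : (Ms f g y s).det ≠ 0) :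
    (∀ i ∈ s, hom D g (y i).1 (y i).2 ≠ 0) ∧ (∀ i ∈ sᶜ, hom D f (y i).1 (y i).2 ≠ 0) ∧
    2 * v.o (Ms f g y s).det = 2 * ∑ i ∈ s, v.o (hom D g (y i).1 (y i).2) +
      2 * ∑ i ∈ sᶜ, v.o (hom D f (y i).1 (y i).2) + ∑ i ∈ s, ∑ j ∈ s, W v (y i) (y j) +
      ∑ i ∈ sᶜ, ∑ j ∈ sᶜ, W v (y i) (y j) := by
  have hs : s.card = D := card_of_det_ne_zero h
  have hs' : sᶜ.card = D := by
    rw [card_compl, Fintype.card_fin, hs]; omega
  set E := finSumEquivOfFinset hs hs' with hE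
  set e₁ := s.orderEmbOfFin hs with he₁
  set e₂ := sᶜ.orderEmbOfFin hs' with he₂
  let A : Matrix (Fin D) (Fin D) K :=
    Matrix.of fun i j => hom D g (y (e₁ i)).1 (y (e₁ i)).2 * PV (fun i => y (e₁ i)) i j
  let B : Matrix (Fin D) (Fin D) K :=
    Matrix.of fun i j => hom D f (y (e₂ i)).1 (y (e₂ i)).2 * PV (fun i => y (e₂ i)) i j
  have hblock : (Ms f g y s).reindex E.symm finSumFinEquiv.symm = Matrix.fromBlocks A 0 0 B := by
    ext i j
    rw [Matrix.reindex_apply, Matrix.submatrix_apply, Equiv.symm_symm, Equiv.symm_symm]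
    rcases i with i | i <;> rcases j with j | j
    · have hm : E (Sum.inl i) ∈ s := by
        rw [hE, finSumEquivOfFinset_inl]; exact orderEmbOfFin_mem s hs i
      simp only [Ms, Matrix.of_apply, piecewise_eq_of_mem _ _ _ hm, Lrow, finSumFinEquiv_apply_left,
        Fin.addCases_left, Matrix.fromBlocks_apply₁₁, A, PV_apply]
      rw [hE, finSumEquivOfFinset_inl, mul_comm]
    · have hm : E (Sum.inl i) ∈ s := by
        rw [hE, finSumEquivOfFinset_inl]; exact orderEmbOfFin_mem s hs i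
      simp only [Ms, Matrix.of_apply, piecewise_eq_of_mem _ _ _ hm, Lrow,
        finSumFinEquiv_apply_right, Fin.addCases_right, Matrix.fromBlocks_apply₁₂,
        Matrix.zero_apply]
    · have hm : E (Sum.inr i) ∉ s := by
        rw [hE, finSumEquivOfFinset_inr, ← mem_compl]; exact orderEmbOfFin_mem sᶜ hs' i
      simp only [Ms, Matrix.of_apply, piecewise_eq_of_notMem _ _ _ hm, Rrow,
        finSumFinEquiv_apply_left, Fin.addCases_left, Matrix.fromBlocks_apply₂₁,
        Matrix.zero_apply]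
    · have hm : E (Sum.inr i) ∉ s := by
        rw [hE, finSumEquivOfFinset_inr, ← mem_compl]; exact orderEmbOfFin_mem sᶜ hs' i
      simp only [Ms, Matrix.of_apply, piecewise_eq_of_notMem _ _ _ hm, Rrow,
        finSumFinEquiv_apply_right, Fin.addCases_right, Matrix.fromBlocks_apply₂₂, B, PV_apply]
      rw [hE, finSumEquivOfFinset_inr, mul_comm]
  have hdet := congrArg Matrix.det hblock
  rw [Matrix.det_reindex, Matrix.det_fromBlocks_zero₂₁] at hdet
  have hA : A.det = (∏ i, hom D g (y (e₁ i)).1 (y (e₁ i)).2) * (PV fun i => y (e₁ i)).det :=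
    Matrix.det_mul_column _ _
  have hB : B.det = (∏ i, hom D f (y (e₂ i)).1 (y (e₂ i)).2) * (PV fun i => y (e₂ i)).det :=
    Matrix.det_mul_column _ _
  have ho : v.o (Ms f g y s).det = v.o (A.det * B.det) := by
    rw [← hdet, o_sign]
  have hne : A.det * B.det ≠ 0 := by
    rw [← hdet]
    refine mul_ne_zero ?_ h
    rcases Int.units_eq_one_or (Equiv.Perm.sign (finSumFinEquiv.symm.trans E.symm.symm)) with h1 | h1
    · rw [h1]; simp
    · rw [h1]; simp
  have hA0 := left_ne_zero_of_mul hne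
  have hB0 := right_ne_zero_of_mul hne
  rw [hA] at hA0
  rw [hB] at hB0
  have hAp := left_ne_zero_of_mul hA0
  have hBp := left_ne_zero_of_mul hB0
  have hAp' : ∀ i ∈ (univ : Finset (Fin D)), hom D g (y (e₁ i)).1 (y (e₁ i)).2 ≠ 0 :=
    prod_ne_zero_iff.1 hAp
  have hBp' : ∀ i ∈ (univ : Finset (Fin D)), hom D f (y (e₂ i)).1 (y (e₂ i)).2 ≠ 0 :=
    prod_ne_zero_iff.1 hBp
  obtain ⟨hPA0, hPA⟩ := det_PV v (fun i => y (e₁ i)) fun i j hij => hy _ _ fun h => hij (e₁.injective h)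
  obtain ⟨hPB0, hPB⟩ := det_PV v (fun i => y (e₂ i)) fun i j hij => hy _ _ fun h => hij (e₂.injective h)
  refine ⟨?_, ?_, ?_⟩
  · intro i hi
    rw [← map_orderEmbOfFin_univ s hs, mem_map] at hi
    obtain ⟨j, -, rfl⟩ := hi
    exact hAp' j (mem_univ j)
  · intro i hi
    rw [← map_orderEmbOfFin_univ sᶜ hs', mem_map] at hi
    obtain ⟨j, -, rfl⟩ := hi
    exact hBp' j (mem_univ j)
  · have e1 := sum_orderEmb s hs (fun i => v.o (hom D g (y i).1 (y i).2))
    have e2 := sum_orderEmb sᶜ hs' (fun i => v.o (hom D f (y i).1 (y i).2))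
    have e3 : ∑ i ∈ s, ∑ j ∈ s, W v (y i) (y j) = ∑ i, ∑ j, W v (y (e₁ i)) (y (e₁ j)) := by
      rw [← sum_orderEmb s hs]
      exact sum_congr rfl fun i _ => (sum_orderEmb s hs _).symm
    have e4 : ∑ i ∈ sᶜ, ∑ j ∈ sᶜ, W v (y i) (y j) = ∑ i, ∑ j, W v (y (e₂ i)) (y (e₂ j)) := by
      rw [← sum_orderEmb sᶜ hs']
      exact sum_congr rfl fun i _ => (sum_orderEmb sᶜ hs' _).symm
    rw [ho, hA, hB, v.mul _ _ (mul_ne_zero hAp hPA0) (mul_ne_zero hBp hPB0),
      v.mul _ _ hAp hPA0, v.mul _ _ hBp hPB0, v.o_prod _ _ hAp', v.o_prod _ _ hBp', e3, e4,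
      ← hPA, ← hPB, ← e1, ← e2]
    ring

theorem energy_fin (v : DV K) {f g : K[X]} (hres : resultant f g D D ≠ 0)
    (y : Fin (D + D) → K × K) (hy : ∀ i j, i ≠ j → wedge (y i) (y j) ≠ 0) (μ : Fin (D + D) → ℝ)
    (hf : ∀ i, v.ge (μ i) (hom D f (y i).1 (y i).2))
    (hg : ∀ i, v.ge (μ i) (hom D g (y i).1 (y i).2)) :
    ∃ s : Finset (Fin (D + D)), s.card = D ∧
      ∑ i, μ i ≤ v.o (resultant f g D D) + ∑ i ∈ s, ∑ j ∈ sᶜ, (W v (y i) (y j) : ℝ) := by
  obtain ⟨hP0, hP⟩ := det_PV v y hy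
  have hne : (PV y).det * resultant f g D D ≠ 0 := mul_ne_zero hP0 hres
  rw [det_PV_mul_resultant] at hne
  obtain ⟨s, -, hs0, hs⟩ := exists_le_of_sum v _ _ hne
  rw [← det_PV_mul_resultant, v.mul _ _ hP0 hres] at hs
  obtain ⟨hG, hF, ho⟩ := o_det_Ms v hy hs0
  refine ⟨s, card_of_det_ne_zero hs0, ?_⟩
  have h1 : ∑ i ∈ s, μ i ≤ ∑ i ∈ s, (v.o (hom D g (y i).1 (y i).2) : ℝ) :=
    sum_le_sum fun i hi => DV.ge_le (hg i) (hG i hi)
  have h2 : ∑ i ∈ sᶜ, μ i ≤ ∑ i ∈ sᶜ, (v.o (hom D f (y i).1 (y i).2) : ℝ) :=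
    sum_le_sum fun i hi => DV.ge_le (hf i) (hF i hi)
  have h3 : ∑ i, μ i = ∑ i ∈ s, μ i + ∑ i ∈ sᶜ, μ i := (sum_add_sum_compl s μ).symm
  have h4 : ∑ i, ∑ j, W v (y i) (y j) = ∑ i ∈ s, ∑ j ∈ s, W v (y i) (y j) +
      ∑ i ∈ sᶜ, ∑ j ∈ sᶜ, W v (y i) (y j) + 2 * ∑ i ∈ s, ∑ j ∈ sᶜ, W v (y i) (y j) := by
    have e1 : ∀ i, ∑ j, W v (y i) (y j) = ∑ j ∈ s, W v (y i) (y j) + ∑ j ∈ sᶜ, W v (y i) (y j) :=
      fun i => (sum_add_sum_compl s _).symm
    rw [sum_congr rfl fun i _ => e1 i, sum_add_distrib, ← sum_add_sum_compl s,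
      ← sum_add_sum_compl s (fun i => ∑ j ∈ sᶜ, W v (y i) (y j))]
    have e2 : ∑ i ∈ sᶜ, ∑ j ∈ s, W v (y i) (y j) = ∑ i ∈ s, ∑ j ∈ sᶜ, W v (y i) (y j) := by
      rw [sum_comm]
      exact sum_congr rfl fun i _ => sum_congr rfl fun j _ => W_comm v _ _
    rw [e2]
    ring
  have h5 : ∑ i ∈ s, v.o (hom D g (y i).1 (y i).2) + ∑ i ∈ sᶜ, v.o (hom D f (y i).1 (y i).2) ≤
      v.o (resultant f g D D) + ∑ i ∈ s, ∑ j ∈ sᶜ, W v (y i) (y j) := by
    linarith
  have h6 : (∑ i ∈ s, (v.o (hom D g (y i).1 (y i).2) : ℝ)) +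
      ∑ i ∈ sᶜ, (v.o (hom D f (y i).1 (y i).2) : ℝ) ≤
      v.o (resultant f g D D) + ∑ i ∈ s, ∑ j ∈ sᶜ, (W v (y i) (y j) : ℝ) := by
    exact_mod_cast h5
  linarith

/-- **The energy inequality** for a pair of forms of degree `D` and `2D` vectors. -/
theorem energy (v : DV K) {ι : Type*} [DecidableEq ι] {f g : K[X]} (hres : resultant f g D D ≠ 0)
    (T : Finset ι) (hT : T.card = D + D) (y : ι → K × K)
    (hy : ∀ i ∈ T, ∀ j ∈ T, i ≠ j → wedge (y i) (y j) ≠ 0) (μ : ι → ℝ)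
    (hf : ∀ i ∈ T, v.ge (μ i) (hom D f (y i).1 (y i).2))
    (hg : ∀ i ∈ T, v.ge (μ i) (hom D g (y i).1 (y i).2)) :
    ∃ s ⊆ T, s.card = D ∧
      ∑ i ∈ T, μ i ≤ v.o (resultant f g D D) + ∑ i ∈ s, ∑ j ∈ T \ s, (W v (y i) (y j) : ℝ) := by
  let e : T ≃ Fin (D + D) := T.equivFinOfCardEq hT
  let z : Fin (D + D) → ι := fun i => (e.symm i : ι)
  have hz : ∀ i, z i ∈ T := fun i => (e.symm i).2
  have hinj : Function.Injective z := fun i j h => e.symm.injective (Subtype.ext h)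
  have hsurj : ∀ i ∈ T, ∃ k, z k = i := fun i hi => ⟨e ⟨i, hi⟩, by simp [z]⟩
  obtain ⟨s, hs, h⟩ := energy_fin v hres (fun i => y (z i))
    (fun i j hij => hy _ (hz i) _ (hz j) fun h => hij (hinj h)) (fun i => μ (z i))
    (fun i => hf _ (hz i)) (fun i => hg _ (hz i))
  have hTz : T = univ.map ⟨z, hinj⟩ := by
    ext i
    simp only [mem_map, mem_univ, true_and, Function.Embedding.coeFn_mk]
    exact ⟨hsurj i, by rintro ⟨k, rfl⟩; exact hz k⟩
  have hc : T \ s.map ⟨z, hinj⟩ = sᶜ.map ⟨z, hinj⟩ := by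
    rw [hTz, ← Finset.map_sdiff]
    congr 1
  refine ⟨s.map ⟨z, hinj⟩, ?_, by rw [card_map, hs], ?_⟩
  · intro i hi
    obtain ⟨k, -, rfl⟩ := mem_map.1 hi
    exact hz k
  · rw [hc, sum_map]
    simp only [sum_map, Function.Embedding.coeFn_mk]
    rw [hTz, sum_map]
    exact h

end split

section cramer

/-- **Lagrange interpolation**, Cramer form. -/
theorem cramer (v : DV K) {ι : Type*} [DecidableEq ι] {n : ℕ} {f : K[X]} (hfn : f.natDegree ≤ n)
    (T : Finset ι)
    (hT : T.card = n + 1) (y : ι → K × K) (hy1 : ∀ i ∈ T, v.ge 0 (y i).1)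
    (hy2 : ∀ i ∈ T, v.ge 0 (y i).2) (β c : ℝ) 
    (hy : ∀ i ∈ T, ∀ j ∈ T, i ≠ j → wedge (y i) (y j) ≠ 0 ∧ (v.o (wedge (y i) (y j)) : ℝ) ≤ β)
    (hf : ∀ i ∈ T, v.ge c (hom n f (y i).1 (y i).2)) (k : ℕ) :
    v.ge (c - (n + 1) * n / 2 * β) (f.coeff k) := by
  let e : T ≃ Fin (n + 1) := T.equivFinOfCardEq hT
  let z : Fin (n + 1) → ι := fun i => (e.symm i : ι)
  have hz : ∀ i, z i ∈ T := fun i => (e.symm i).2
  have hinj : Function.Injective z := fun i j h => e.symm.injective (Subtype.ext h)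
  have hne : ∀ i j, i ≠ j → z i ≠ z j := fun i j hij h => hij (hinj h)
  obtain ⟨hP0, hP⟩ := det_PV v (fun i => y (z i))
    (fun i j hij => (hy _ (hz i) _ (hz j) (hne i j hij)).1)
  set M := PV (fun i => y (z i)) with hM
  have hint : ∀ i j, v.ge 0 (M i j) := by
    intro i j
    rw [hM, PV_apply, mon]
    have h1 := DV.ge_mul (DV.ge_pow (hy1 _ (hz i)) j.1) (DV.ge_pow (hy2 _ (hz i)) (n + 1 - (j.1 + 1)))
    simpa using h1
  have hbound : (v.o M.det : ℝ) ≤ (n + 1) * n / 2 * β := by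
    have h1 : ∑ i : Fin (n + 1), ∑ j : Fin (n + 1), (W v (y (z i)) (y (z j)) : ℝ) ≤
        ∑ i : Fin (n + 1), ∑ j : Fin (n + 1), if i = j then 0 else β := by
      refine sum_le_sum fun i _ => sum_le_sum fun j _ => ?_
      split_ifs with h
      · rw [h, W_self]; simp
      · have := hy _ (hz i) _ (hz j) (hne i j h)
        rw [W_of_ne this.1]
        exact this.2
    have h2 : ∑ i : Fin (n + 1), ∑ j : Fin (n + 1), (if i = j then 0 else β) = (n + 1) * n * β := by
      have h3 : ∀ i : Fin (n + 1), ∑ j : Fin (n + 1), (if i = j then 0 else β) = n * β := by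
        intro i
        rw [← add_sum_erase univ _ (mem_univ i), if_pos rfl, zero_add]
        rw [sum_congr rfl (g := fun _ => β)]
        · simp [card_erase_of_mem]
        · intro j hj
          rw [if_neg (ne_of_mem_erase hj).symm]
      rw [sum_congr rfl fun i _ => h3 i]
      simp
      ring
    have h3 : (2 * v.o M.det : ℝ) = ∑ i : Fin (n + 1), ∑ j : Fin (n + 1), (W v (y (z i)) (y (z j)) : ℝ) := by
      exact_mod_cast hP
    linarith
  have hmul : M.mulVec (fun k : Fin (n + 1) => f.coeff k) =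
      fun i => hom n f (y (z i)).1 (y (z i)).2 := by
    funext i
    simp only [Matrix.mulVec, dotProduct, hM, PV_apply, mon, hom]
    rw [Finset.Nat.sum_antidiagonal_eq_sum_range_succ_mk,
      Fin.sum_univ_eq_sum_range (fun k => (y (z i)).1 ^ k * (y (z i)).2 ^ (n + 1 - (k + 1)) *
        f.coeff k) (n + 1)]
    refine sum_congr rfl fun k _ => ?_
    simp only [Nat.add_sub_add_right, Algebra.algebraMap_self, RingHom.id_apply]
    ring
  by_cases hk : n < k
  · rw [coeff_eq_zero_of_natDegree_lt (lt_of_le_of_lt hfn hk)]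
    exact DV.ge_zero _
  have h1 : v.ge c (M.det * f.coeff k) := by
    have h2 : M.adjugate.mulVec (fun i => hom n f (y (z i)).1 (y (z i)).2) =
        M.det • (fun k : Fin (n + 1) => f.coeff k) := by
      rw [← hmul, Matrix.mulVec_mulVec, Matrix.adjugate_mul, Matrix.smul_mulVec, Matrix.one_mulVec]
    have h3 := congrFun h2 ⟨k, by omega⟩
    simp only [Pi.smul_apply, smul_eq_mul] at h3
    rw [← h3, Matrix.mulVec, dotProduct]
    refine DV.ge_sum _ _ fun i _ => ?_
    have := DV.ge_mul (ge_adjugate M hint ⟨k, by omega⟩ i) (hf _ (hz i))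
    rwa [zero_add] at this
  by_cases h0 : f.coeff k = 0
  · exact Or.inl h0
  right
  have h4 := DV.ge_le h1 (mul_ne_zero hP0 h0)
  rw [v.mul _ _ hP0 h0] at h4
  push_cast at h4
  linarith

end cramer

end Pool.Agent.Helper55.RD
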