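import Mathlib
import Pool.Agent.Helper55.RD.Energy

/-!
Bounds in terms of the resultant.
-/

set_option autoImplicit false

open Polynomial Finset Pool.Agent.Helper33

namespace Pool.Agent.Helper55.RD

variable {K : Type*} [Field K] {v : DV K}

/-- integral form -/
def IntP (v : DV K) (f : K[X]) : Prop := ∀ k, v.ge 0 (f.coeff k)

/-- primitive vector -/
def Prim (v : DV K) (x : K × K) : Prop :=
  v.ge 0 x.1 ∧ v.ge 0 x.2 ∧ ((x.1 ≠ 0 ∧ v.o x.1 = 0) ∨ (x.2 ≠ 0 ∧ v.o x.2 = 0))

lemma ge_hom_zero {n : ℕ} {f : K[X]} (hf : IntP v f) {a b : K} (ha : v.ge 0 a) (hb : v.ge 0 b) :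
    v.ge 0 (hom n f a b) := by
  refine DV.ge_sum _ _ fun kl _ => ?_
  have h1 := DV.ge_mul (DV.ge_mul (hf kl.1) (DV.ge_pow ha kl.1)) (DV.ge_pow hb kl.2)
  simpa using h1

lemma ge_sylvester {f g : K[X]} {m n : ℕ} {a b : ℝ} (hf : ∀ k, v.ge a (f.coeff k))
    (hg : ∀ k, v.ge b (g.coeff k)) (i j : Fin (m + n)) :
    v.ge (Fin.addCases (motive := fun _ => ℝ) (fun _ => b) (fun _ => a) j) (sylvester f g m n i j) := by
  refine Fin.addCases (fun j₁ => ?_) (fun j₁ => ?_) j
  · simp only [sylvester, Matrix.of_apply, Fin.addCases_left]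
    split_ifs
    · exact hg _
    · exact DV.ge_zero _
  · simp only [sylvester, Matrix.of_apply, Fin.addCases_right]
    split_ifs
    · exact hf _
    · exact DV.ge_zero _

lemma ge_resultant {f g : K[X]} {m n : ℕ} {a b : ℝ} (hf : ∀ k, v.ge a (f.coeff k))
    (hg : ∀ k, v.ge b (g.coeff k)) : v.ge (m * b + n * a) (resultant f g m n) := by
  have h := ge_det (sylvester f g m n) _ (fun i j => ge_sylvester hf hg i j)
  rw [Fin.sum_univ_add] at h
  simpa [resultant] using h

/-- upper bound of the value at a primitive vector -/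
theorem le_resultant {f g : K[X]} {d : ℕ} (hd : 1 ≤ d) (hres : resultant f g d d ≠ 0) (hf : IntP v f)
    (hg : IntP v g) {x : K × K} (hx : Prim v x) {c : ℝ} (h1 : v.ge c (hom d f x.1 x.2))
    (h2 : v.ge c (hom d g x.1 x.2)) : c ≤ v.o (resultant f g d d) := by
  set M := sylvester f g d d with hM
  have hint : ∀ i j, v.ge 0 (M i j) := by
    intro i j
    have := ge_sylvester (m := d) (n := d) hf hg i j
    refine Fin.addCases (fun j₁ => ?_) (fun j₁ => ?_) j
    · have := ge_sylvester (m := d) (n := d) hf hg i (Fin.castAdd d j₁)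
      rwa [Fin.addCases_left] at this
    · have := ge_sylvester (m := d) (n := d) hf hg i (Fin.natAdd d j₁)
      rwa [Fin.addCases_right] at this
  let m : Fin (d + d) → K := fun k => x.1 ^ k.1 * x.2 ^ (d + d - (k.1 + 1))
  have hrow : ∀ j, v.ge c (Matrix.vecMul m M j) := by
    intro j
    have h3 : Matrix.vecMul m M j = Fin.addCases (motive := fun _ => K)
        (fun j₁ => mon x.1 x.2 j₁ * hom d g x.1 x.2)
        (fun j₁ => mon x.1 x.2 j₁ * hom d f x.1 x.2) j := by
      rw [← vand_row_mul_sylvester f g d d x.1 x.2 j]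
      rfl
    rw [h3]
    have hmon : ∀ j₁ : Fin d, v.ge 0 (mon x.1 x.2 j₁) := by
      intro j₁
      have := DV.ge_mul (DV.ge_pow hx.1 j₁.1) (DV.ge_pow hx.2.1 (d - (j₁.1 + 1)))
      simpa [mon] using this
    refine Fin.addCases (fun j₁ => ?_) (fun j₁ => ?_) j
    · rw [Fin.addCases_left]
      have := DV.ge_mul (hmon j₁) h2
      rwa [zero_add] at this
    · rw [Fin.addCases_right]
      have := DV.ge_mul (hmon j₁) h1
      rwa [zero_add] at this
  have hmul : ∀ j, v.ge c (m j * resultant f g d d) := by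
    intro j
    have h3 : Matrix.vecMul (Matrix.vecMul m M) M.adjugate = M.det • m := by
      rw [Matrix.vecMul_vecMul, Matrix.mul_adjugate, Matrix.vecMul_smul, Matrix.vecMul_one]
    have h4 := congrFun h3 j
    simp only [Pi.smul_apply, smul_eq_mul] at h4
    rw [mul_comm, resultant, ← hM, ← h4, Matrix.vecMul, dotProduct]
    refine DV.ge_sum _ _ fun i _ => ?_
    have := DV.ge_mul (hrow i) (ge_adjugate M hint i j)
    rwa [add_zero] at this
  rcases hx.2.2 with ⟨hx0, hx1⟩ | ⟨hx0, hx1⟩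
  · have h3 := hmul ⟨d + d - 1, by omega⟩
    have h4 : m ⟨d + d - 1, by omega⟩ = x.1 ^ (d + d - 1) := by
      simp only [m]
      rw [show d + d - (d + d - 1 + 1) = 0 by omega, pow_zero, mul_one]
    rw [h4] at h3
    have h5 := DV.ge_le h3 (mul_ne_zero (pow_ne_zero _ hx0) hres)
    rw [v.mul _ _ (pow_ne_zero _ hx0) hres, v.o_pow _ hx0, hx1] at h5
    simpa using h5
  · have h3 := hmul ⟨0, by omega⟩
    have h4 : m ⟨0, by omega⟩ = x.2 ^ (d + d - 1) := by
      simp only [m]
      rw [pow_zero, one_mul]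
    rw [h4] at h3
    have h5 := DV.ge_le h3 (mul_ne_zero (pow_ne_zero _ hx0) hres)
    rw [v.mul _ _ (pow_ne_zero _ hx0) hres, v.o_pow _ hx0, hx1] at h5
    simpa using h5

/-- the form `x ↦ Φ(x) ∧ w` -/
noncomputable def wform (f g : K[X]) (w : K × K) : K[X] := C w.2 * f - C w.1 * g

lemma natDegree_wform {f g : K[X]} {d : ℕ} (hf : f.natDegree ≤ d) (hg : g.natDegree ≤ d)
    (w : K × K) : (wform f g w).natDegree ≤ d :=
  (natDegree_sub_le_of_le ((natDegree_C_mul_le _ _).trans hf)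
    ((natDegree_C_mul_le _ _).trans hg)).trans (max_self d).le

lemma hom_wform (d : ℕ) (f g : K[X]) (w x : K × K) :
    hom d (wform f g w) x.1 x.2 = wedge (hom d f x.1 x.2, hom d g x.1 x.2) w := by
  rw [wform, hom_sub, hom_C_mul, hom_C_mul, wedge]
  simp
  ring

/-- bound of the content of `x ↦ Φ(x) ∧ w` -/
theorem content_wform {f g : K[X]} {d : ℕ} (hfd : f.natDegree ≤ d) (hgd : g.natDegree ≤ d)
    (hres : resultant f g d d ≠ 0) (hf : IntP v f)
    (hg : IntP v g) {w : K × K} (hw : Prim v w) {κ : ℝ} (h : ∀ k, v.ge κ ((wform f g w).coeff k)) :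
    d * κ ≤ v.o (resultant f g d d) := by
  rcases hw.2.2 with ⟨hw0, hw1⟩ | ⟨hw0, hw1⟩
  · have h1 := resultant_gl2 hfd hgd w.2 (-w.1) 1 0
    have h2 : C w.2 * f + C (-w.1) * g = wform f g w := by
      rw [wform, C_neg]; ring
    have h3 : C (1 : K) * f + C 0 * g = f := by simp
    rw [h2, h3] at h1
    have h4 : w.2 * 0 - -w.1 * 1 = w.1 := by ring
    rw [h4] at h1
    have h5 := ge_resultant (m := d) (n := d) h hf
    rw [h1] at h5
    have h6 := DV.ge_le h5 (mul_ne_zero (pow_ne_zero _ hw0) hres)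
    rw [v.mul _ _ (pow_ne_zero _ hw0) hres, v.o_pow _ hw0, hw1] at h6
    simpa using h6
  · have h1 := resultant_gl2 hfd hgd w.2 (-w.1) 0 1
    have h2 : C w.2 * f + C (-w.1) * g = wform f g w := by
      rw [wform, C_neg]; ring
    have h3 : C (0 : K) * f + C 1 * g = g := by simp
    rw [h2, h3] at h1
    have h4 : w.2 * 1 - -w.1 * 0 = w.2 := by ring
    rw [h4] at h1
    have h5 := ge_resultant (m := d) (n := d) h hg
    rw [h1] at h5
    have h6 := DV.ge_le h5 (mul_ne_zero (pow_ne_zero _ hw0) hres)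
    rw [v.mul _ _ (pow_ne_zero _ hw0) hres, v.o_pow _ hw0, hw1] at h6
    simpa using h6

end Pool.Agent.Helper55.RD
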