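import Mathlib
import Pool.Agent.Helper55.RD.Content

/-!
Preperiodic points of a pair of binary forms over a valued field.
-/

set_option autoImplicit false

open Polynomial Finset Pool.Agent.Helper33

namespace Pool.Agent.Helper55.RD

variable {K : Type*} [Field K]

/-- A family of (pre)periodic points of the pair of forms `(F, G)` of degree `d`, with the local
height `H`. -/
structure Sys (v : DV K) (d : ℕ) (ι : Type*) where
  F : K[X]
  G : K[X]
  hF : F.natDegree ≤ d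
  hG : G.natDegree ≤ d
  hR : resultant F G d d ≠ 0
  x : ι → K × K
  hx : ∀ i j, i ≠ j → wedge (x i) (x j) ≠ 0
  hx0 : ∀ i, x i ≠ 0
  φ : ι → ι
  c : ι → K
  hc : ∀ i, c i ≠ 0
  hΦF : ∀ i, hom d F (x i).1 (x i).2 = c i * (x (φ i)).1
  hΦG : ∀ i, hom d G (x i).1 (x i).2 = c i * (x (φ i)).2
  H : ι → ℝ
  hH : ∀ i, d * H i = v.o (c i) + H (φ i)

namespace Sys

variable {v : DV K} {d : ℕ} {ι : Type*} (S : Sys v d ι)

/-- normalised valuation of the resultant -/
noncomputable def r : ℝ := v.o (resultant S.F S.G d d) / (d * (d - 1))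

/-- the local Arakelov-Green function -/
noncomputable def g (i j : ι) : ℝ := W v (S.x i) (S.x j) - S.H i - S.H j + S.r

lemma g_comm (i j : ι) : S.g i j = S.g j i := by
  unfold g; rw [W_comm]; ring

lemma W_eq (i j : ι) : (W v (S.x i) (S.x j) : ℝ) = S.g i j + S.H i + S.H j - S.r := by
  unfold g; ring

lemma o_res (hd : 2 ≤ d) : (v.o (resultant S.F S.G d d) : ℝ) = d * (d - 1) * S.r := by
  have h1 : (d : ℝ) ≠ 0 := by positivity
  have h2 : (d : ℝ) - 1 ≠ 0 := by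
    have : (2 : ℝ) ≤ d := by exact_mod_cast hd
    linarith
  rw [r]
  field_simp

/-- integral forms, primitive vectors -/
structure Good : Prop where
  intF : IntP v S.F
  intG : IntP v S.G
  prim : ∀ i, Prim v (S.x i)

variable {S}

lemma ge_of_prim {x : K × K} (hx : Prim v x) {c : K} {a : ℝ} (h1 : v.ge a (c * x.1))
    (h2 : v.ge a (c * x.2)) : v.ge a c := by
  by_cases hc : c = 0
  · exact Or.inl hc
  right
  rcases hx.2.2 with ⟨h3, h4⟩ | ⟨h3, h4⟩
  · have := DV.ge_le h1 (mul_ne_zero hc h3)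
    rw [v.mul _ _ hc h3, h4, add_zero] at this
    exact this
  · have := DV.ge_le h2 (mul_ne_zero hc h3)
    rw [v.mul _ _ hc h3, h4, add_zero] at this
    exact this

lemma ge_mul_of_ge {c x : K} (hx : v.ge 0 x) : v.ge (v.o c) (c * x) := by
  have := DV.ge_mul (DV.ge_self (v := v) c) hx
  rwa [add_zero] at this

lemma Good.c_nonneg (h : S.Good) (i : ι) : (0 : ℝ) ≤ v.o (S.c i) := by
  refine DV.ge_le (ge_of_prim (h.prim (S.φ i)) ?_ ?_) (S.hc i)
  · rw [← S.hΦF]; exact ge_hom_zero h.intF (h.prim i).1 (h.prim i).2.1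
  · rw [← S.hΦG]; exact ge_hom_zero h.intG (h.prim i).1 (h.prim i).2.1

lemma Good.c_le (h : S.Good) (hd : 2 ≤ d) (i : ι) : (v.o (S.c i) : ℝ) ≤ d * (d - 1) * S.r := by
  rw [← S.o_res hd]
  refine le_resultant (by omega) S.hR h.intF h.intG (h.prim i) ?_ ?_
  · rw [S.hΦF]; exact ge_mul_of_ge (h.prim _).1
  · rw [S.hΦG]; exact ge_mul_of_ge (h.prim _).2.1

lemma Good.r_nonneg (h : S.Good) (hd : 2 ≤ d) : 0 ≤ S.r := by
  have h1 := ge_resultant (m := d) (n := d) h.intF h.intG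
  have h2 := DV.ge_le h1 S.hR
  have h3 : (2 : ℝ) ≤ d := by exact_mod_cast hd
  rw [r]
  have h4 : (0 : ℝ) ≤ v.o (resultant S.F S.G d d) := by simpa using h2
  exact div_nonneg h4 (mul_nonneg (by linarith) (by linarith))

lemma Good.H_nonneg [Finite ι] (h : S.Good) (hd : 2 ≤ d) (i : ι) : 0 ≤ S.H i := by
  have hne : Nonempty ι := ⟨i⟩
  obtain ⟨i₀, hi₀⟩ := Finite.exists_min S.H
  have h1 := S.hH i₀
  have h2 := h.c_nonneg i₀
  have h3 := hi₀ (S.φ i₀)
  have h4 : (2 : ℝ) ≤ d := by exact_mod_cast hd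
  have h5 : 0 ≤ S.H i₀ := by nlinarith
  exact h5.trans (hi₀ i)

lemma Good.H_le [Finite ι] (h : S.Good) (hd : 2 ≤ d) (i : ι) : S.H i ≤ d * S.r := by
  have hne : Nonempty ι := ⟨i⟩
  obtain ⟨i₀, hi₀⟩ := Finite.exists_max S.H
  have h1 := S.hH i₀
  have h2 := h.c_le hd i₀
  have h3 := hi₀ (S.φ i₀)
  have h4 : (2 : ℝ) ≤ d := by exact_mod_cast hd
  have h5 : S.H i₀ ≤ d * S.r := by nlinarith
  exact (hi₀ i).trans h5

section iter

variable (S)

/-- the iterates -/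
noncomputable def it : ℕ → K[X] × K[X]
  | 0 => (X, 1)
  | k + 1 => (hom d S.F (it k).1 (it k).2, hom d S.G (it k).1 (it k).2)

lemma natDegree_it (k : ℕ) : (S.it k).1.natDegree ≤ d ^ k ∧ (S.it k).2.natDegree ≤ d ^ k := by
  induction k with
  | zero => simp [it]
  | succ k ih =>
    rw [pow_succ']
    exact ⟨natDegree_hom_le _ ih.1 ih.2, natDegree_hom_le _ ih.1 ih.2⟩

lemma res_it (hd : 2 ≤ d) (k : ℕ) : resultant (S.it k).1 (S.it k).2 (d ^ k) (d ^ k) ≠ 0 ∧
    (v.o (resultant (S.it k).1 (S.it k).2 (d ^ k) (d ^ k)) : ℝ) = d ^ k * (d ^ k - 1) * S.r := by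
  induction k with
  | zero =>
    have h : resultant (X : K[X]) 1 1 1 = 1 := by
      rw [resultant_one_one natDegree_X_le (by simp)]
      simp
    simp only [it, pow_zero, h]
    simp [v.o_one]
  | succ k ih =>
    have h1 := resultant_hom S.hF S.hG (S.natDegree_it k).1 (S.natDegree_it k).2
    have e1 : (S.it (k + 1)).1 = hom d S.F (S.it k).1 (S.it k).2 := rfl
    have e2 : (S.it (k + 1)).2 = hom d S.G (S.it k).1 (S.it k).2 := rfl
    rw [e1, e2, pow_succ', h1]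
    refine ⟨mul_ne_zero (pow_ne_zero _ S.hR) (pow_ne_zero _ ih.1), ?_⟩
    rw [v.mul _ _ (pow_ne_zero _ S.hR) (pow_ne_zero _ ih.1), v.o_pow _ S.hR, v.o_pow _ ih.1]
    push_cast
    rw [ih.2, S.o_res hd]
    ring

lemma hom_it (k : ℕ) (i : ι) : ∃ C : K, C ≠ 0 ∧
    hom (d ^ k) (S.it k).1 (S.x i).1 (S.x i).2 = C * (S.x (S.φ^[k] i)).1 ∧
    hom (d ^ k) (S.it k).2 (S.x i).1 (S.x i).2 = C * (S.x (S.φ^[k] i)).2 ∧
    (v.o C : ℝ) = d ^ k * S.H i - S.H (S.φ^[k] i) := by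
  induction k with
  | zero =>
    refine ⟨1, one_ne_zero, ?_, ?_, ?_⟩
    · simp [it, hom_one_deg]
    · simp [it, hom_one_deg, coeff_one]
    · simp [v.o_one]
  | succ k ih =>
    obtain ⟨C, hC, h1, h2, h3⟩ := ih
    refine ⟨C ^ d * S.c (S.φ^[k] i), mul_ne_zero (pow_ne_zero _ hC) (S.hc _), ?_, ?_, ?_⟩
    · rw [pow_succ']
      have e1 : (S.it (k + 1)).1 = hom d S.F (S.it k).1 (S.it k).2 := rfl
      rw [e1, hom_hom _ (S.natDegree_it k).1 (S.natDegree_it k).2, h1, h2, hom_smul_smul, S.hΦF,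
        Function.iterate_succ_apply']
      ring
    · rw [pow_succ']
      have e1 : (S.it (k + 1)).2 = hom d S.G (S.it k).1 (S.it k).2 := rfl
      rw [e1, hom_hom _ (S.natDegree_it k).1 (S.natDegree_it k).2, h1, h2, hom_smul_smul, S.hΦG,
        Function.iterate_succ_apply']
      ring
    · rw [v.mul _ _ (pow_ne_zero _ hC) (S.hc _), v.o_pow _ hC]
      have h4 := S.hH (S.φ^[k] i)
      push_cast
      rw [h3, Function.iterate_succ_apply']
      rw [pow_succ]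
      linarith

variable {S}

/-- the energy inequality for preperiodic points -/
theorem Good.energy [Finite ι] [DecidableEq ι] (h : S.Good) (hd : 2 ≤ d) (k : ℕ) (T : Finset ι)
    (hT : T.card = d ^ k + d ^ k) :
    ∃ s ⊆ T, s.card = d ^ k ∧
      -((2 * d - 1) * d ^ k * S.r) ≤ ∑ i ∈ s, ∑ j ∈ T \ s, S.g i j := by
  choose C hC0 hC1 hC2 hC3 using S.hom_it k
  obtain ⟨s, hs, hsc, hs2⟩ := RD.energy v (S.res_it hd k).1 T hT S.x (fun i _ j _ hij => S.hx i j hij)
    (fun i => v.o (C i))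
    (fun i _ => by rw [hC1]; exact ge_mul_of_ge (h.prim _).1)
    (fun i _ => by rw [hC2]; exact ge_mul_of_ge (h.prim _).2.1)
  refine ⟨s, hs, hsc, ?_⟩
  rw [(S.res_it hd k).2] at hs2
  have hcard : (T \ s).card = d ^ k := by
    rw [card_sdiff_of_subset hs, hT, hsc]; omega
  have e1 : ∑ i ∈ s, ∑ j ∈ T \ s, (W v (S.x i) (S.x j) : ℝ) =
      ∑ i ∈ s, ∑ j ∈ T \ s, S.g i j + d ^ k * ∑ i ∈ T, S.H i - d ^ k * d ^ k * S.r := by
    have e2 : ∀ i, ∑ j ∈ T \ s, (W v (S.x i) (S.x j) : ℝ) =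
        ∑ j ∈ T \ s, S.g i j + d ^ k * S.H i + ∑ j ∈ T \ s, S.H j - d ^ k * S.r := by
      intro i
      rw [sum_congr rfl fun j _ => S.W_eq i j]
      rw [sum_sub_distrib, sum_add_distrib, sum_add_distrib, sum_const, sum_const, hcard]
      simp only [nsmul_eq_mul, Nat.cast_pow]
    rw [sum_congr rfl fun i _ => e2 i]
    rw [sum_sub_distrib, sum_add_distrib, sum_add_distrib, sum_const, sum_const, hsc, ← mul_sum,
      ← sum_sdiff hs]
    simp only [nsmul_eq_mul, Nat.cast_pow]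
    ring
  have e3 : ∑ i ∈ T, (v.o (C i) : ℝ) = d ^ k * ∑ i ∈ T, S.H i - ∑ i ∈ T, S.H (S.φ^[k] i) := by
    rw [sum_congr rfl fun i _ => hC3 i, sum_sub_distrib, mul_sum]
  have e4 : ∑ i ∈ T, S.H (S.φ^[k] i) ≤ (d ^ k + d ^ k) * (d * S.r) := by
    have := sum_le_sum (s := T) fun i _ => h.H_le hd (S.φ^[k] i)
    refine this.trans (le_of_eq ?_)
    rw [sum_const, hT]
    simp
  rw [e1, e3] at hs2
  nlinarith

end iter

end Sys

end Pool.Agent.Helper55.RD
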