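import Mathlib
import Pool.Agent.Helper55.RD.Sys

/-!
Change of coordinates.
-/

set_option autoImplicit false

open Polynomial Finset Pool.Agent.Helper33

namespace Pool.Agent.Helper55.RD

variable {K : Type*} [Field K]

/-- a two by two matrix -/
structure M2 (K : Type*) where
  a : K
  b : K
  c : K
  e : K

namespace M2

/-- determinant -/
def det (N : M2 K) : K := N.a * N.e - N.b * N.c

/-- the action on vectors -/
def app (N : M2 K) (x : K × K) : K × K := (N.a * x.1 + N.b * x.2, N.c * x.1 + N.e * x.2)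

/-- the adjugate on vectors -/
def adj (N : M2 K) (x : K × K) : K × K := (N.e * x.1 - N.b * x.2, N.a * x.2 - N.c * x.1)

lemma app_adj (N : M2 K) (x : K × K) : N.app (N.adj x) = (N.det * x.1, N.det * x.2) := by
  simp only [app, adj, det]
  refine Prod.ext ?_ ?_ <;> ring

lemma adj_app (N : M2 K) (x : K × K) : N.adj (N.app x) = (N.det * x.1, N.det * x.2) := by
  simp only [app, adj, det]
  refine Prod.ext ?_ ?_ <;> ring

lemma wedge_app (N : M2 K) (x y : K × K) : wedge (N.app x) (N.app y) = N.det * wedge x y := by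
  simp only [app, wedge, det]; ring

end M2

/-- substitution in a form -/
noncomputable def pb (d : ℕ) (N : M2 K) (F : K[X]) : K[X] :=
  hom d F (C N.a * X + C N.b) (C N.c * X + C N.e)

/-- first component of the conjugate -/
noncomputable def trF (d : ℕ) (N : M2 K) (κ : K) (F G : K[X]) : K[X] :=
  C (κ * N.e) * pb d N F + C (-(κ * N.b)) * pb d N G

/-- second component of the conjugate -/
noncomputable def trG (d : ℕ) (N : M2 K) (κ : K) (F G : K[X]) : K[X] :=
  C (-(κ * N.c)) * pb d N F + C (κ * N.a) * pb d N G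

lemma natDegree_lin (a b : K) : (C a * X + C b).natDegree ≤ 1 := natDegree_linear_le

lemma natDegree_pb {d : ℕ} (N : M2 K) {F : K[X]} : (pb d N F).natDegree ≤ d := by
  have := natDegree_hom_le (n := d) F (natDegree_lin N.a N.b) (natDegree_lin N.c N.e)
  rwa [mul_one] at this

lemma hom_pb {d : ℕ} (N : M2 K) (F : K[X]) (x : K × K) :
    hom d (pb d N F) x.1 x.2 = hom d F (N.app x).1 (N.app x).2 := by
  have := hom_hom (n := d) F (natDegree_lin N.a N.b) (natDegree_lin N.c N.e) x.1 x.2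
  rw [mul_one] at this
  rw [pb, this, hom_one_deg, hom_one_deg]
  simp [M2.app]

lemma natDegree_trF {d : ℕ} (N : M2 K) (κ : K) {F G : K[X]} : (trF d N κ F G).natDegree ≤ d :=
  (natDegree_add_le_of_le ((natDegree_C_mul_le _ _).trans (natDegree_pb N))
    ((natDegree_C_mul_le _ _).trans (natDegree_pb N))).trans (max_self d).le

lemma natDegree_trG {d : ℕ} (N : M2 K) (κ : K) {F G : K[X]} : (trG d N κ F G).natDegree ≤ d :=
  (natDegree_add_le_of_le ((natDegree_C_mul_le _ _).trans (natDegree_pb N))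
    ((natDegree_C_mul_le _ _).trans (natDegree_pb N))).trans (max_self d).le

lemma resultant_tr {d : ℕ} (N : M2 K) (κ : K) {F G : K[X]} (hF : F.natDegree ≤ d)
    (hG : G.natDegree ≤ d) :
    resultant (trF d N κ F G) (trG d N κ F G) d d =
      (κ ^ 2 * N.det) ^ d * (N.det ^ (d * d) * resultant F G d d) := by
  rw [trF, trG, resultant_gl2 (natDegree_pb N) (natDegree_pb N)]
  have h := resultant_hom hF hG (natDegree_lin N.a N.b) (natDegree_lin N.c N.e)
  rw [mul_one, resultant_one_one (natDegree_lin N.a N.b) (natDegree_lin N.c N.e), pow_one] at h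
  simp only [coeff_add, coeff_C_mul, coeff_X_one, coeff_C_zero, coeff_X_zero, mul_one, mul_zero,
    zero_add] at h
  rw [coeff_C_of_ne_zero one_ne_zero, coeff_C_of_ne_zero one_ne_zero, add_zero, add_zero] at h
  rw [pb, pb, h, M2.det]
  ring

lemma hom_trF {d : ℕ} (N : M2 K) (κ : K) (F G : K[X]) (x : K × K) :
    hom d (trF d N κ F G) x.1 x.2 = κ * (N.e * hom d F (N.app x).1 (N.app x).2 -
      N.b * hom d G (N.app x).1 (N.app x).2) := by
  rw [trF, hom_add, hom_C_mul, hom_C_mul, hom_pb, hom_pb]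
  simp
  ring

lemma hom_trG {d : ℕ} (N : M2 K) (κ : K) (F G : K[X]) (x : K × K) :
    hom d (trG d N κ F G) x.1 x.2 = κ * (N.a * hom d G (N.app x).1 (N.app x).2 -
      N.c * hom d F (N.app x).1 (N.app x).2) := by
  rw [trG, hom_add, hom_C_mul, hom_C_mul, hom_pb, hom_pb]
  simp
  ring

lemma exists_prim (v : DV K) {y : K × K} (hy : y ≠ 0) : ∃ μ : K, μ ≠ 0 ∧
    Prim v (μ * y.1, μ * y.2) := by
  have key : ∀ a b : K, a ≠ 0 → (b = 0 ∨ v.o a ≤ v.o b) →
      a⁻¹ ≠ 0 ∧ v.ge 0 (a⁻¹ * b) ∧ v.ge 0 (a⁻¹ * a) ∧ a⁻¹ * a ≠ 0 ∧ v.o (a⁻¹ * a) = 0 := by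
    intro a b ha hb
    refine ⟨inv_ne_zero ha, ?_, ?_, ?_, ?_⟩
    · rcases hb with hb | hb
      · left; rw [hb, mul_zero]
      · by_cases hb0 : b = 0
        · left; rw [hb0, mul_zero]
        right
        rw [v.mul _ _ (inv_ne_zero ha) hb0, v.o_inv _ ha]
        push_cast
        have : (v.o a : ℝ) ≤ v.o b := by exact_mod_cast hb
        linarith
    · rw [inv_mul_cancel₀ ha]; exact DV.ge_one
    · rw [inv_mul_cancel₀ ha]; exact one_ne_zero
    · rw [inv_mul_cancel₀ ha]; exact v.o_one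
  by_cases h1 : y.1 = 0
  · have h2 : y.2 ≠ 0 := fun h => hy (Prod.ext h1 h)
    obtain ⟨k1, k2, k3, k4, k5⟩ := key y.2 y.1 h2 (Or.inl h1)
    exact ⟨y.2⁻¹, k1, k2, k3, Or.inr ⟨k4, k5⟩⟩
  by_cases h2 : y.2 = 0
  · obtain ⟨k1, k2, k3, k4, k5⟩ := key y.1 y.2 h1 (Or.inl h2)
    exact ⟨y.1⁻¹, k1, k3, k2, Or.inl ⟨k4, k5⟩⟩
  rcases le_total (v.o y.1) (v.o y.2) with h | h
  · obtain ⟨k1, k2, k3, k4, k5⟩ := key y.1 y.2 h1 (Or.inr h)
    exact ⟨y.1⁻¹, k1, k3, k2, Or.inl ⟨k4, k5⟩⟩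
  · obtain ⟨k1, k2, k3, k4, k5⟩ := key y.2 y.1 h2 (Or.inr h)
    exact ⟨y.2⁻¹, k1, k2, k3, Or.inr ⟨k4, k5⟩⟩

/-- exact content zero of a pair -/
def Cont0 (v : DV K) (F G : K[X]) : Prop :=
  ∃ k, (F.coeff k ≠ 0 ∧ v.o (F.coeff k) = 0) ∨ (G.coeff k ≠ 0 ∧ v.o (G.coeff k) = 0)

lemma exists_content (v : DV K) {F G : K[X]} (h : F ≠ 0 ∨ G ≠ 0) : ∃ κ : K, κ ≠ 0 ∧
    IntP v (C κ * F) ∧ IntP v (C κ * G) ∧ Cont0 v (C κ * F) (C κ * G) := by
  classical
  let A : Finset K := (F.support.image F.coeff) ∪ (G.support.image G.coeff)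
  have hA : A.Nonempty := by
    rcases h with h | h
    · obtain ⟨k, hk⟩ := nonempty_support_iff.2 h
      exact ⟨F.coeff k, mem_union_left _ (mem_image_of_mem _ hk)⟩
    · obtain ⟨k, hk⟩ := nonempty_support_iff.2 h
      exact ⟨G.coeff k, mem_union_right _ (mem_image_of_mem _ hk)⟩
  obtain ⟨a, ha, hmin⟩ := exists_min_image A v.o hA
  have ha0 : a ≠ 0 := by
    rcases mem_union.1 ha with h | h
    · obtain ⟨k, hk, rfl⟩ := mem_image.1 h
      exact mem_support_iff.1 hk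
    · obtain ⟨k, hk, rfl⟩ := mem_image.1 h
      exact mem_support_iff.1 hk
  have hge : ∀ b : K, b = 0 ∨ b ∈ A → v.ge 0 (a⁻¹ * b) := by
    intro b hb
    by_cases hb0 : b = 0
    · left; rw [hb0, mul_zero]
    rcases hb with hb | hb
    · exact absurd hb hb0
    right
    rw [v.mul _ _ (inv_ne_zero ha0) hb0, v.o_inv _ ha0]
    have : (v.o a : ℝ) ≤ v.o b := by exact_mod_cast hmin b hb
    push_cast
    linarith
  have hone : a⁻¹ * a ≠ 0 ∧ v.o (a⁻¹ * a) = 0 := by
    rw [inv_mul_cancel₀ ha0]; exact ⟨one_ne_zero, v.o_one⟩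
  refine ⟨a⁻¹, inv_ne_zero ha0, fun k => ?_, fun k => ?_, ?_⟩
  · rw [coeff_C_mul]
    refine hge _ ?_
    by_cases h0 : F.coeff k = 0
    · exact Or.inl h0
    · exact Or.inr (mem_union_left _ (mem_image_of_mem _ (mem_support_iff.2 h0)))
  · rw [coeff_C_mul]
    refine hge _ ?_
    by_cases h0 : G.coeff k = 0
    · exact Or.inl h0
    · exact Or.inr (mem_union_right _ (mem_image_of_mem _ (mem_support_iff.2 h0)))
  · rcases mem_union.1 ha with h | h
    · obtain ⟨k, -, hk⟩ := mem_image.1 h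
      refine ⟨k, Or.inl ?_⟩
      rw [coeff_C_mul, hk]; exact hone
    · obtain ⟨k, -, hk⟩ := mem_image.1 h
      refine ⟨k, Or.inr ?_⟩
      rw [coeff_C_mul, hk]; exact hone

lemma wedge_ne_zero_of_scale {x y x' y' : K × K} {N : M2 K} {l m : K} (hl : l ≠ 0)
    (hm : m ≠ 0) (h : wedge x y ≠ 0) (hx : N.app x' = (l * x.1, l * x.2))
    (hy : N.app y' = (m * y.1, m * y.2)) :
    wedge x' y' ≠ 0 ∧ N.det * wedge x' y' = l * m * wedge x y := by
  have h1 := N.wedge_app x' y'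
  rw [hx, hy] at h1
  have h2 : wedge (l * x.1, l * x.2) (m * y.1, m * y.2) = l * m * wedge x y := by
    simp only [wedge]; ring
  rw [h2] at h1
  refine ⟨?_, h1.symm⟩
  intro h0
  rw [h0, mul_zero] at h1
  exact mul_ne_zero (mul_ne_zero hl hm) h h1

/-- **Change of coordinates.** -/
theorem Sys.exists_tr {v : DV K} {d : ℕ} {ι : Type*} (hd : 2 ≤ d) (S : Sys v d ι) (N : M2 K)
    (hN : N.det ≠ 0) (κ : K) (hκ : κ ≠ 0) :
    ∃ S' : Sys v d ι, S'.F = trF d N κ S.F S.G ∧ S'.G = trG d N κ S.F S.G ∧ S'.φ = S.φ ∧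
      (∀ i, Prim v (S'.x i)) ∧ (∀ i j, i ≠ j → S'.g i j = S.g i j) ∧
      ∀ i, ∃ l : K, l ≠ 0 ∧ N.app (S'.x i) = (l * (S.x i).1, l * (S.x i).2) := by
  have hadj : ∀ i, N.adj (S.x i) ≠ 0 := by
    intro i h
    have h1 := N.app_adj (S.x i)
    rw [h] at h1
    apply S.hx0 i
    have h2 : N.app 0 = 0 := by simp [M2.app]
    rw [h2] at h1
    have h3 := congrArg Prod.fst h1
    have h4 := congrArg Prod.snd h1
    simp only [Prod.fst_zero, Prod.snd_zero] at h3 h4
    exact Prod.ext ((mul_eq_zero.1 h3.symm).resolve_left hN)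
      ((mul_eq_zero.1 h4.symm).resolve_left hN)
  choose μ hμ0 hμ using fun i => exists_prim v (hadj i)
  set l : ι → K := fun i => μ i * N.det with hl
  have hl0 : ∀ i, l i ≠ 0 := fun i => mul_ne_zero (hμ0 i) hN
  set x' : ι → K × K := fun i => (μ i * (N.adj (S.x i)).1, μ i * (N.adj (S.x i)).2) with hx'
  have happ : ∀ i, N.app (x' i) = (l i * (S.x i).1, l i * (S.x i).2) := by
    intro i
    have h1 := N.app_adj (S.x i)
    have h2 : N.app (x' i) = (μ i * (N.app (N.adj (S.x i))).1, μ i * (N.app (N.adj (S.x i))).2) := by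
      simp only [hx', M2.app]
      refine Prod.ext ?_ ?_ <;> ring
    rw [h2, h1]
    refine Prod.ext ?_ ?_ <;> (simp only [hl]; ring)
  have hw : ∀ i j, i ≠ j → wedge (x' i) (x' j) ≠ 0 ∧
      N.det * wedge (x' i) (x' j) = l i * l j * wedge (S.x i) (S.x j) := fun i j hij =>
    wedge_ne_zero_of_scale (hl0 i) (hl0 j) (S.hx i j hij) (happ i) (happ j)
  have hres := resultant_tr N κ S.hF S.hG
  have hres0 : resultant (trF d N κ S.F S.G) (trG d N κ S.F S.G) d d ≠ 0 := by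
    rw [hres]
    exact mul_ne_zero (pow_ne_zero _ (mul_ne_zero (pow_ne_zero _ hκ) hN))
      (mul_ne_zero (pow_ne_zero _ hN) S.hR)
  have hd1 : (d : ℝ) - 1 ≠ 0 := by
    have : (2 : ℝ) ≤ d := by exact_mod_cast hd
    linarith
  have hd0 : (d : ℝ) ≠ 0 := by positivity
  have heval : ∀ i, hom d S.F (N.app (x' i)).1 (N.app (x' i)).2 =
      l i ^ d * (S.c i * (S.x (S.φ i)).1) ∧ hom d S.G (N.app (x' i)).1 (N.app (x' i)).2 =
      l i ^ d * (S.c i * (S.x (S.φ i)).2) := by
    intro i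
    rw [happ i]
    simp only
    rw [hom_smul_smul, hom_smul_smul, S.hΦF, S.hΦG]
    exact ⟨rfl, rfl⟩
  have hadj2 : ∀ i, N.e * (S.x i).1 - N.b * (S.x i).2 = N.det * (l i)⁻¹ * (x' i).1 ∧
      N.a * (S.x i).2 - N.c * (S.x i).1 = N.det * (l i)⁻¹ * (x' i).2 := by
    intro i
    have h1 := N.adj_app (x' i)
    rw [happ i] at h1
    have h3 := congrArg Prod.fst h1
    have h4 := congrArg Prod.snd h1
    simp only [M2.adj] at h3 h4
    constructor
    · have : l i * (N.e * (S.x i).1 - N.b * (S.x i).2) = N.det * (x' i).1 := by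
        rw [← h3]; ring
      rw [mul_assoc, mul_comm ((l i)⁻¹), ← mul_assoc, ← this]
      field_simp [hl0 i]
    · have : l i * (N.a * (S.x i).2 - N.c * (S.x i).1) = N.det * (x' i).2 := by
        rw [← h4]; ring
      rw [mul_assoc, mul_comm ((l i)⁻¹), ← mul_assoc, ← this]
      field_simp [hl0 i]
  have hκN : κ * N.det ≠ 0 := mul_ne_zero hκ hN
  let S' : Sys v d ι :=
    { F := trF d N κ S.F S.G
      G := trG d N κ S.F S.G
      hF := natDegree_trF N κ
      hG := natDegree_trG N κ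
      hR := hres0
      x := x'
      hx := fun i j hij => (hw i j hij).1
      hx0 := by
        intro i h
        rcases (hμ i).2.2 with ⟨h1, -⟩ | ⟨h1, -⟩
        · exact h1 (congrArg Prod.fst h)
        · exact h1 (congrArg Prod.snd h)
      φ := S.φ
      c := fun i => κ * N.det * (l i ^ d * S.c i * (l (S.φ i))⁻¹)
      hc := fun i => mul_ne_zero hκN (mul_ne_zero (mul_ne_zero (pow_ne_zero _ (hl0 i)) (S.hc i))
        (inv_ne_zero (hl0 _)))
      hΦF := by
        intro i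
        rw [hom_trF, (heval i).1, (heval i).2]
        have h1 := (hadj2 (S.φ i)).1
        linear_combination (κ * l i ^ d * S.c i) * h1
      hΦG := by
        intro i
        rw [hom_trG, (heval i).1, (heval i).2]
        have h1 := (hadj2 (S.φ i)).2
        linear_combination (κ * l i ^ d * S.c i) * h1
      H := fun i => S.H i + v.o (l i) + (v.o κ + v.o N.det) / (d - 1)
      hH := by
        intro i
        have h1 := S.hH i
        rw [v.mul _ _ hκN (mul_ne_zero (mul_ne_zero (pow_ne_zero _ (hl0 i)) (S.hc i))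
          (inv_ne_zero (hl0 _))), v.mul _ _ hκ hN, v.mul _ _ (mul_ne_zero (pow_ne_zero _ (hl0 i))
          (S.hc i)) (inv_ne_zero (hl0 _)), v.mul _ _ (pow_ne_zero _ (hl0 i)) (S.hc i),
          v.o_pow _ (hl0 i), v.o_inv _ (hl0 _)]
        push_cast
        field_simp
        linear_combination ((d : ℝ) - 1) * h1 }
  refine ⟨S', rfl, rfl, rfl, hμ, ?_, fun i => ⟨l i, hl0 i, happ i⟩⟩
  intro i j hij
  have h1 : S'.r = S.r + (2 * v.o κ + (1 + d) * v.o N.det) / (d - 1) := by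
    have h2 : S'.r = v.o (resultant (trF d N κ S.F S.G) (trG d N κ S.F S.G) d d) / (d * (d - 1)) :=
      rfl
    rw [h2, hres, v.mul _ _ (pow_ne_zero _ (mul_ne_zero (pow_ne_zero _ hκ) hN))
      (mul_ne_zero (pow_ne_zero _ hN) S.hR), v.o_pow _ (mul_ne_zero (pow_ne_zero _ hκ) hN),
      v.mul _ _ (pow_ne_zero _ hκ) hN, v.o_pow _ hκ, v.mul _ _ (pow_ne_zero _ hN) S.hR,
      v.o_pow _ hN, Sys.r]
    push_cast
    field_simp
    ring
  have h3 : (W v (S'.x i) (S'.x j) : ℝ) = v.o (l i) + v.o (l j) + W v (S.x i) (S.x j) - v.o N.det := by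
    have h4 : S'.x = x' := rfl
    rw [h4, W_of_ne (hw i j hij).1, W_of_ne (S.hx i j hij)]
    have h5 := congrArg v.o (hw i j hij).2
    rw [v.mul _ _ hN (hw i j hij).1, v.mul _ _ (mul_ne_zero (hl0 i) (hl0 j)) (S.hx i j hij),
      v.mul _ _ (hl0 i) (hl0 j)] at h5
    have h6 : (v.o N.det : ℝ) + v.o (wedge (x' i) (x' j)) =
        v.o (l i) + v.o (l j) + v.o (wedge (S.x i) (S.x j)) := by exact_mod_cast h5
    linarith
  have h7 : S'.H i = S.H i + v.o (l i) + (v.o κ + v.o N.det) / (d - 1) := rfl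
  have h8 : S'.H j = S.H j + v.o (l j) + (v.o κ + v.o N.det) / (d - 1) := rfl
  rw [Sys.g, Sys.g, h1, h3, h7, h8]
  field_simp
  ring

end Pool.Agent.Helper55.RD
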