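import Mathlib
import Pool.Agent.Helper55.RD.Tr
import Pool.Agent.Helper55.RD.Comb

/-!
The local lower bound for the Arakelov-Green function at preperiodic points.
-/

set_option autoImplicit false

open Polynomial Finset Pool.Agent.Helper33

namespace Pool.Agent.Helper55.RD

variable {K : Type*} [Field K] {v : DV K}

lemma prim_wedge {x u w : K × K} (hx : Prim v x) (hu : v.ge 0 u.1 ∧ v.ge 0 u.2)
    (hw : v.ge 0 w.1 ∧ v.ge 0 w.2) {c : ℝ} (h1 : v.ge c (wedge x u)) (h2 : v.ge c (wedge x w)) :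
    v.ge c (wedge u w) := by
  have e1 : wedge u w * x.1 = wedge x w * u.1 - wedge x u * w.1 := by simp only [wedge]; ring
  have e2 : wedge u w * x.2 = wedge x w * u.2 - wedge x u * w.2 := by simp only [wedge]; ring
  have key : ∀ {a b : K}, v.ge c a → v.ge 0 b → v.ge c (a * b) := by
    intro a b ha hb
    have := DV.ge_mul ha hb
    rwa [add_zero] at this
  refine Sys.ge_of_prim hx ?_ ?_
  · rw [e1]; exact DV.ge_sub (key h2 hu.1) (key h1 hw.1)
  · rw [e2]; exact DV.ge_sub (key h2 hu.2) (key h1 hw.2)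

lemma Prim.int {x : K × K} (hx : Prim v x) : v.ge 0 x.1 ∧ v.ge 0 x.2 := ⟨hx.1, hx.2.1⟩

lemma ge_wedge {x y : K × K} (hx : Prim v x) (hy : Prim v y) : v.ge 0 (wedge x y) := by
  have h1 := DV.ge_mul hx.1 hy.2.1
  have h2 := DV.ge_mul hx.2.1 hy.1
  rw [add_zero] at h1 h2
  exact DV.ge_sub h1 h2

/-- negation of smallness -/
lemma ge_of_not_small {x : K} {c : ℝ} (h : ¬ (x ≠ 0 ∧ (v.o x : ℝ) ≤ c)) : v.ge (⌊c⌋ + 1) x := by
  by_cases hx : x = 0
  · exact Or.inl hx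
  right
  have h1 : c < v.o x := by
    by_contra h2
    exact h ⟨hx, not_lt.1 h2⟩
  have h2 : ⌊c⌋ < v.o x := Int.floor_lt.2 h1
  exact_mod_cast h2

lemma not_ge_of_small {x : K} {c : ℝ} (h : x ≠ 0 ∧ (v.o x : ℝ) ≤ c) : ¬ v.ge (⌊c⌋ + 1) x := by
  intro h2
  have h3 := DV.ge_le h2 h.1
  have h4 := Int.lt_floor_add_one c
  linarith [h.2]

namespace Sys

variable {d : ℕ} {ι : Type*} {S : Sys v d ι}

lemma card_large_c (hS : S.Good) (h0 : Cont0 v S.F S.G) [DecidableEq ι] {β : ℝ} {T : Finset ι}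
    (hT : ∀ i ∈ T, ∀ j ∈ T, i ≠ j → (v.o (wedge (S.x i) (S.x j)) : ℝ) ≤ β)
    (hlarge : ∀ i ∈ T, (d + 1) * d / 2 * β < v.o (S.c i)) : T.card ≤ d := by
  by_contra hcon
  push Not at hcon
  obtain ⟨T', hT', hcard⟩ := exists_subset_card_eq (Nat.succ_le_of_lt hcon)
  set c₀ : ℝ := (d + 1) * d / 2 * β with hc₀
  have hge : ∀ i ∈ T', v.ge (⌊c₀⌋ + 1) (S.c i) := fun i hi =>
    ge_of_not_small fun h => absurd h.2 (not_le.2 (hlarge i (hT' hi)))
  have hF : ∀ k, v.ge (⌊c₀⌋ + 1 - c₀) (S.F.coeff k) := fun k =>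
    cramer v S.hF T' hcard S.x (fun i _ => (hS.prim i).1) (fun i _ => (hS.prim i).2.1) β _
      (fun i hi j hj hij => ⟨S.hx i j hij, hT i (hT' hi) j (hT' hj) hij⟩)
      (fun i hi => by
        rw [S.hΦF]
        have := DV.ge_mul (hge i hi) (hS.prim (S.φ i)).1
        rwa [add_zero] at this) k
  have hG : ∀ k, v.ge (⌊c₀⌋ + 1 - c₀) (S.G.coeff k) := fun k =>
    cramer v S.hG T' hcard S.x (fun i _ => (hS.prim i).1) (fun i _ => (hS.prim i).2.1) β _
      (fun i hi j hj hij => ⟨S.hx i j hij, hT i (hT' hi) j (hT' hj) hij⟩)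
      (fun i hi => by
        rw [S.hΦG]
        have := DV.ge_mul (hge i hi) (hS.prim (S.φ i)).2.1
        rwa [add_zero] at this) k
  have hlt := Int.lt_floor_add_one c₀
  obtain ⟨k, hk | hk⟩ := h0
  · have := DV.ge_le (hF k) hk.1
    rw [hk.2] at this
    push_cast at this
    linarith
  · have := DV.ge_le (hG k) hk.1
    rw [hk.2] at this
    push_cast at this
    linarith

lemma card_large_wedge (hd : 2 ≤ d) (hS : S.Good) [DecidableEq ι] {β : ℝ} {T : Finset ι}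
    (hT : ∀ i ∈ T, ∀ j ∈ T, i ≠ j → (v.o (wedge (S.x i) (S.x j)) : ℝ) ≤ β) {w : K × K}
    (hw : Prim v w)
    (hlarge : ∀ i ∈ T, ¬ (wedge (S.x (S.φ i)) w ≠ 0 ∧
      (v.o (wedge (S.x (S.φ i)) w) : ℝ) ≤ (d - 1) * S.r + (d + 1) * d / 2 * β)) : T.card ≤ d := by
  by_contra hcon
  push Not at hcon
  obtain ⟨T', hT', hcard⟩ := exists_subset_card_eq (Nat.succ_le_of_lt hcon)
  set c₀ : ℝ := (d - 1) * S.r + (d + 1) * d / 2 * β with hc₀
  have hge : ∀ i ∈ T', v.ge (⌊c₀⌋ + 1) (wedge (S.x (S.φ i)) w) := fun i hi =>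
    ge_of_not_small (hlarge i (hT' hi))
  have hP : ∀ k, v.ge (⌊c₀⌋ + 1 - (d + 1) * d / 2 * β) ((wform S.F S.G w).coeff k) := fun k =>
    cramer v (natDegree_wform S.hF S.hG w) T' hcard S.x (fun i _ => (hS.prim i).1)
      (fun i _ => (hS.prim i).2.1) β _
      (fun i hi j hj hij => ⟨S.hx i j hij, hT i (hT' hi) j (hT' hj) hij⟩)
      (fun i hi => by
        rw [hom_wform, S.hΦF, S.hΦG]
        have e : wedge (S.c i * (S.x (S.φ i)).1, S.c i * (S.x (S.φ i)).2) w =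
            S.c i * wedge (S.x (S.φ i)) w := by simp only [wedge]; ring
        rw [e]
        have h1 : v.ge 0 (S.c i) := Or.inr (hS.c_nonneg i)
        have := DV.ge_mul h1 (hge i hi)
        rwa [zero_add] at this) k
  have h1 := content_wform S.hF S.hG S.hR hS.intF hS.intG hw hP
  rw [S.o_res hd] at h1
  have hlt := Int.lt_floor_add_one c₀
  have hd' : (0 : ℝ) < d := by positivity
  have h2 : (⌊c₀⌋ + 1 - (d + 1) * d / 2 * β : ℝ) ≤ (d - 1) * S.r := by
    have : (d : ℝ) * (⌊c₀⌋ + 1 - (d + 1) * d / 2 * β) ≤ d * ((d - 1) * S.r) := by linarith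
    exact le_of_mul_le_mul_left this hd'
  linarith

end Sys

end Pool.Agent.Helper55.RD
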