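import Mathlib
import Pool.Agent.Helper55.RD.Core

/-!
The core of the local lower bound.
-/

set_option autoImplicit false

open Polynomial Finset Pool.Agent.Helper33

namespace Pool.Agent.Helper55.RD

variable {K : Type*} [Field K] {v : DV K}

/-- the small constant -/
noncomputable def ep (d : ℕ) : ℝ := 1 / (128 * d ^ 2)

lemma ep_pos {d : ℕ} (hd : 2 ≤ d) : 0 < ep d := by
  unfold ep; positivity

lemma ep_eq {d : ℕ} (hd : 2 ≤ d) : (d : ℝ) ^ 2 * ep d = 1 / 128 := by
  unfold ep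
  have : (d : ℝ) ≠ 0 := by positivity
  field_simp

/-- the size of the clique needed in the core lemma -/
def n₀ (d : ℕ) : ℕ := (d + 1) * d ^ 6 + d + 3

namespace Sys

variable {d : ℕ} {ι : Type*} {S : Sys v d ι}

theorem core (hd : 2 ≤ d) [Finite ι] [DecidableEq ι] (hS : S.Good) (h0 : Cont0 v S.F S.G)
    (hr : 0 < S.r) (C : Finset ι) {a b c : ι} (ha : a ∈ C) (hb : b ∈ C) (hc : c ∈ C)
    (hab : a ≠ b) (hac : a ≠ c) (hbc : b ≠ c) (wab : v.o (wedge (S.x a) (S.x b)) = 0)
    (wac : v.o (wedge (S.x a) (S.x c)) = 0) (wbc : v.o (wedge (S.x b) (S.x c)) = 0)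
    (hC : ∀ i ∈ C, ∀ j ∈ C, i ≠ j → |S.g i j| ≤ ep d * S.r) (hcard : n₀ d ≤ C.card) : False := by
  classical
  set r := S.r with hrdef
  set e := ep d with hedef
  have he : 0 < e := ep_pos hd
  have hde : (d : ℝ) ^ 2 * e = 1 / 128 := ep_eq hd
  have hd2 : (2 : ℝ) ≤ d := by exact_mod_cast hd
  have hde1 : (d : ℝ) * e ≤ 1 / 256 := by nlinarith
  have hee : e ≤ 1 / 512 := by nlinarith
  have her : 0 < e * r := mul_pos he hr
  have hW : ∀ i j, i ≠ j → (v.o (wedge (S.x i) (S.x j)) : ℝ) = S.g i j + S.H i + S.H j - r := by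
    intro i j hij
    rw [← S.W_eq i j, W_of_ne (S.hx i j hij)]
  have hW0 : ∀ i j, i ≠ j → (0 : ℝ) ≤ v.o (wedge (S.x i) (S.x j)) := fun i j hij =>
    DV.ge_le (ge_wedge (hS.prim i) (hS.prim j)) (S.hx i j hij)
  have gab := abs_le.1 (hC a ha b hb hab)
  have gac := abs_le.1 (hC a ha c hc hac)
  have gbc := abs_le.1 (hC b hb c hc hbc)
  have eab := hW a b hab
  have eac := hW a c hac
  have ebc := hW b c hbc
  rw [wab] at eab
  rw [wac] at eac
  rw [wbc] at ebc
  push_cast at eab eac ebc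
  have hHa : |S.H a - r / 2| ≤ 3 / 2 * (e * r) := by
    rw [abs_le]; constructor <;> linarith
  have hHb : |S.H b - r / 2| ≤ 3 / 2 * (e * r) := by
    rw [abs_le]; constructor <;> linarith
  have hH : ∀ i ∈ C, |S.H i - r / 2| ≤ 5 / 2 * (e * r) := by
    intro i hi
    by_cases hia : i = a
    · rw [hia]; linarith
    by_cases hib : i = b
    · rw [hib]; linarith
    have h1 : v.o (wedge (S.x i) (S.x a)) = 0 ∨ v.o (wedge (S.x i) (S.x b)) = 0 := by
      by_contra hcon
      rw [not_or] at hcon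
      have ka := hW0 i a hia
      have kb := hW0 i b hib
      have ka' : 0 ≤ v.o (wedge (S.x i) (S.x a)) := by exact_mod_cast ka
      have kb' : 0 ≤ v.o (wedge (S.x i) (S.x b)) := by exact_mod_cast kb
      have la : v.ge 1 (wedge (S.x i) (S.x a)) := by
        right
        have : 1 ≤ v.o (wedge (S.x i) (S.x a)) := by omega
        exact_mod_cast this
      have lb : v.ge 1 (wedge (S.x i) (S.x b)) := by
        right
        have : 1 ≤ v.o (wedge (S.x i) (S.x b)) := by omega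
        exact_mod_cast this
      have := DV.ge_le (prim_wedge (hS.prim i) (hS.prim a).int (hS.prim b).int la lb) (S.hx a b hab)
      rw [wab] at this
      norm_num at this
    rcases h1 with h1 | h1
    · have e1 := hW i a hia
      rw [h1] at e1
      have g1 := abs_le.1 (hC i hi a ha hia)
      have k1 := abs_le.1 hHa
      push_cast at e1
      rw [abs_le]; constructor <;> linarith
    · have e1 := hW i b hib
      rw [h1] at e1
      have g1 := abs_le.1 (hC i hi b hb hib)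
      have k1 := abs_le.1 hHb
      push_cast at e1
      rw [abs_le]; constructor <;> linarith
  set β : ℝ := 6 * (e * r) with hβ
  have hβC : ∀ i ∈ C, ∀ j ∈ C, i ≠ j → (v.o (wedge (S.x i) (S.x j)) : ℝ) ≤ β := by
    intro i hi j hj hij
    rw [hW i j hij]
    have g1 := abs_le.1 (hC i hi j hj hij)
    have k1 := abs_le.1 (hH i hi)
    have k2 := abs_le.1 (hH j hj)
    linarith
  set A0 : ℝ := (d + 1) * d / 2 * β with hA0
  have hA0r : A0 ≤ 9 / 256 * r := by
    rw [hA0, hβ]
    have : (d + 1) * d / 2 * (6 * (e * r)) = 3 * (d ^ 2 * e + d * e) * r := by ring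
    rw [this, hde]
    nlinarith
  have hA0pos : 0 ≤ A0 := by
    rw [hA0, hβ]; positivity
  -- the good indices
  set C' := C.filter fun i => (v.o (S.c i) : ℝ) ≤ A0 with hC'
  have hC'card : C.card ≤ C'.card + d := by
    have h1 : (C \ C').card ≤ d := by
      refine card_large_c hS h0 (β := β) ?_ ?_
      · intro i hi j hj hij
        exact hβC i (mem_sdiff.1 hi).1 j (mem_sdiff.1 hj).1 hij
      · intro i hi
        rw [mem_sdiff, hC', mem_filter, not_and] at hi
        exact not_le.1 (hi.2 hi.1)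
    have h2 := card_sdiff_of_subset (show C' ⊆ C from filter_subset _ _)
    omega
  set y : ι → K × K := fun i => S.x (S.φ i) with hy
  set b0 : ℝ := (d - 1) * r + A0 with hb0
  obtain ⟨B, hBC, hBcard, hB⟩ := greedy
    (fun i j => ¬ (wedge (y i) (y j) ≠ 0 ∧ (v.o (wedge (y i) (y j)) : ℝ) ≤ b0))
    (by
      intro i j h h2
      apply h
      rw [wedge_swap (y j), v.o_neg]
      exact ⟨neg_ne_zero.2 h2.1, h2.2⟩)
    C' d (by
      intro j _
      refine card_large_wedge hd hS (β := β) (w := y j) ?_ (hS.prim _) ?_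
      · intro i hi j hj hij
        exact hβC i (mem_filter.1 (mem_filter.1 hi).1).1 j (mem_filter.1 (mem_filter.1 hj).1).1 hij
      · intro i hi
        exact (mem_filter.1 hi).2) (d ^ 6) (by unfold n₀ at hcard; omega)
  have hB' : ∀ i ∈ B, ∀ j ∈ B, i ≠ j →
      wedge (y i) (y j) ≠ 0 ∧ (v.o (wedge (y i) (y j)) : ℝ) ≤ b0 := fun i hi j hj hij =>
    not_not.1 (hB i hi j hj hij)
  -- the indices far from the images
  set L := C.filter fun l => ∀ i ∈ B, wedge (S.x l) (y i) ≠ 0 ∧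
    (v.o (wedge (S.x l) (y i)) : ℝ) ≤ β with hL
  have hLcard : C.card ≤ L.card + d ^ 6 := by
    have h1 : C \ L ⊆ B.biUnion fun i => C.filter fun l =>
          ¬ (wedge (S.x l) (y i) ≠ 0 ∧ (v.o (wedge (S.x l) (y i)) : ℝ) ≤ β) := by
      intro l hl
      rw [mem_sdiff, hL, mem_filter, not_and] at hl
      obtain ⟨hlC, hl2⟩ := hl
      replace hl2 := hl2 hlC
      simp only [not_forall] at hl2
      obtain ⟨i, hi, hil⟩ := hl2
      exact mem_biUnion.2 ⟨i, hi, mem_filter.2 ⟨hlC, hil⟩⟩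
    have h2 : (B.biUnion fun i => C.filter fun l =>
          ¬ (wedge (S.x l) (y i) ≠ 0 ∧ (v.o (wedge (S.x l) (y i)) : ℝ) ≤ β)).card ≤ B.card * 1 := by
      refine card_biUnion_le_card_mul _ _ _ fun i _ => ?_
      rw [card_le_one]
      intro l hl l' hl'
      by_contra hne
      rw [mem_filter] at hl hl'
      have g1 := ge_of_not_small hl.2
      have g2 := ge_of_not_small hl'.2
      have g1' : v.ge (⌊β⌋ + 1) (wedge (y i) (S.x l)) := by
        rw [wedge_swap]; exact DV.ge_neg g1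
      have g2' : v.ge (⌊β⌋ + 1) (wedge (y i) (S.x l')) := by
        rw [wedge_swap]; exact DV.ge_neg g2
      have g3 := prim_wedge (hS.prim (S.φ i)) (hS.prim l).int (hS.prim l').int g1' g2'
      exact not_ge_of_small ⟨S.hx l l' hne, hβC l hl.1 l' hl'.1 hne⟩ g3
    have h3 := card_le_card h1
    have h4 := card_sdiff_of_subset (show L ⊆ C from filter_subset _ _)
    omega
  have hd6 : 64 ≤ d ^ 6 := by
    calc 64 = 2 ^ 6 := by norm_num
      _ ≤ d ^ 6 := Nat.pow_le_pow_left hd 6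
  obtain ⟨A, hAL, hAcard⟩ := exists_subset_card_eq (show d ^ 6 ≤ L.card by
    unfold n₀ at hcard
    have : (d + 1) * d ^ 6 = d * d ^ 6 + d ^ 6 := by ring
    have h2 : 2 * d ^ 6 ≤ d * d ^ 6 := Nat.mul_le_mul_right _ hd
    omega)
  have hAC : ∀ l ∈ A, l ∈ C := fun l hl => (mem_filter.1 (hAL hl)).1
  have hAB : ∀ l ∈ A, ∀ i ∈ B, wedge (S.x l) (y i) ≠ 0 ∧
      (v.o (wedge (S.x l) (y i)) : ℝ) ≤ β := fun l hl => (mem_filter.1 (hAL hl)).2
  have hBC2 : ∀ i ∈ B, i ∈ C ∧ (v.o (S.c i) : ℝ) ≤ A0 := fun i hi => mem_filter.1 (hBC hi)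
  -- heights of the images
  have hHy : ∀ i ∈ B, d * (r / 2 - 5 / 2 * (e * r)) - A0 ≤ S.H (S.φ i) := by
    intro i hi
    have h1 := S.hH i
    have h2 := abs_le.1 (hH i (hBC2 i hi).1)
    have h3 := (hBC2 i hi).2
    have h4 : r / 2 - 5 / 2 * (e * r) ≤ S.H i := by linarith
    have h5 : (d : ℝ) * (r / 2 - 5 / 2 * (e * r)) ≤ d * S.H i :=
      mul_le_mul_of_nonneg_left h4 (by positivity)
    linarith
  have hder : d * (e * r) ≤ 1 / 256 * r := by
    rw [← mul_assoc]; exact mul_le_mul_of_nonneg_right hde1 hr.le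
  have heer : e * r ≤ 1 / 512 * r := mul_le_mul_of_nonneg_right hee hr.le
  have hWy : ∀ i j, S.φ i ≠ S.φ j → (v.o (wedge (y i) (y j)) : ℝ) =
      S.g (S.φ i) (S.φ j) + S.H (S.φ i) + S.H (S.φ j) - r := fun i j hij => hW _ _ hij
  have hφne : ∀ i ∈ B, ∀ j ∈ B, i ≠ j → S.φ i ≠ S.φ j := by
    intro i hi j hj hij h
    apply (hB' i hi j hj hij).1
    simp only [hy]
    rw [h, wedge_self]
  have gyy : ∀ i ∈ B, ∀ j ∈ B, i ≠ j → S.g (S.φ i) (S.φ j) ≤ r / 8 := by
    intro i hi j hj hij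
    have h1 := hWy i j (hφne i hi j hj hij)
    have h2 := (hB' i hi j hj hij).2
    have h3 := hHy i hi
    have h4 := hHy j hj
    have h5 : d * (r / 2 - 5 / 2 * (e * r)) = d * r / 2 - 5 / 2 * (d * (e * r)) := by ring
    rw [h5] at h3 h4
    linarith
  have hlφ : ∀ l ∈ A, ∀ i ∈ B, l ≠ S.φ i := by
    intro l hl i hi h
    apply (hAB l hl i hi).1
    simp only [hy]
    rw [h, wedge_self]
  have gxy : ∀ l ∈ A, ∀ i ∈ B, S.g l (S.φ i) ≤ r / 8 - (d - 1) / 2 * r := by
    intro l hl i hi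
    have h1 := hW l (S.φ i) (hlφ l hl i hi)
    have h2 := (hAB l hl i hi).2
    simp only [hy] at h2
    have h3 := hHy i hi
    have h4 := abs_le.1 (hH l (hAC l hl))
    have h5 : d * (r / 2 - 5 / 2 * (e * r)) = d * r / 2 - 5 / 2 * (d * (e * r)) := by ring
    rw [h5] at h3
    linarith
  have gxx : ∀ l ∈ A, ∀ l' ∈ A, l ≠ l' → S.g l l' ≤ r / 8 := by
    intro l hl l' hl' hne
    have := abs_le.1 (hC l (hAC l hl) l' (hAC l' hl') hne)
    linarith
  -- the set of `2D` points
  set T := A ∪ B.image S.φ with hT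
  have hdisj : Disjoint A (B.image S.φ) := by
    rw [disjoint_left]
    intro l hl hl2
    obtain ⟨i, hi, hil⟩ := mem_image.1 hl2
    exact hlφ l hl i hi hil.symm
  have hTcard : T.card = d ^ 6 + d ^ 6 := by
    rw [hT, card_union_of_disjoint hdisj, hAcard, card_image_of_injOn, hBcard]
    intro i hi j hj h
    by_contra hne
    exact hφne i hi j hj hne h
  obtain ⟨s, hsT, hscard, hen⟩ := hS.energy hd 6 T hTcard
  rw [← hrdef] at hen
  have hTs : (T \ s).card = d ^ 6 := by
    rw [card_sdiff_of_subset hsT, hTcard, hscard]; omega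
  let u : ι → ℝ := fun i => if i ∈ A then 1 else 0
  have hterm : ∀ i ∈ s, ∀ j ∈ T \ s, S.g i j ≤
      r / 8 - (d - 1) / 2 * r * (u i + u j - 2 * (u i * u j)) := by
    intro i hi j hj
    have hiT := hsT hi
    rw [mem_sdiff] at hj
    have hij : i ≠ j := fun h => hj.2 (h ▸ hi)
    rw [hT, mem_union] at hiT
    have hjT := hj.1
    rw [hT, mem_union] at hjT
    by_cases hiA : i ∈ A <;> by_cases hjA : j ∈ A
    · have := gxx i hiA j hjA hij
      simp only [u, if_pos hiA, if_pos hjA]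
      linarith
    · obtain ⟨j', hj', rfl⟩ := mem_image.1 (hjT.resolve_left hjA)
      have := gxy i hiA j' hj'
      simp only [u, if_pos hiA, if_neg hjA]
      linarith
    · obtain ⟨i', hi', rfl⟩ := mem_image.1 (hiT.resolve_left hiA)
      have := gxy j hjA i' hi'
      rw [S.g_comm] at this
      simp only [u, if_neg hiA, if_pos hjA]
      linarith
    · obtain ⟨i', hi', rfl⟩ := mem_image.1 (hiT.resolve_left hiA)
      obtain ⟨j', hj', rfl⟩ := mem_image.1 (hjT.resolve_left hjA)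
      have := gyy i' hi' j' hj' (fun h => hij (by rw [h]))
      simp only [u, if_neg hiA, if_neg hjA]
      linarith
  have hsum := sum_le_sum fun i hi => sum_le_sum (hterm i hi)
  have hu : ∑ i ∈ s, u i + ∑ j ∈ T \ s, u j = d ^ 6 := by
    rw [add_comm, sum_sdiff hsT]
    have : ∑ i ∈ T, u i = ((T.filter fun i => i ∈ A).card : ℝ) := by
      rw [card_filter]; push_cast; rfl
    rw [this]
    have h2 : T.filter (fun i => i ∈ A) = A := by
      ext i
      rw [mem_filter, hT, mem_union]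
      constructor
      · exact fun h => h.2
      · exact fun h => ⟨Or.inl h, h⟩
    rw [h2, hAcard]
    push_cast
    rfl
  set p := ∑ i ∈ s, u i with hp
  set p' := ∑ j ∈ T \ s, u j with hp'
  have hsum2 : ∑ i ∈ s, ∑ j ∈ T \ s, (r / 8 - (d - 1) / 2 * r * (u i + u j - 2 * (u i * u j))) =
      (d : ℝ) ^ 6 * d ^ 6 * (r / 8) - (d - 1) / 2 * r * (d ^ 6 * (p + p') - 2 * (p * p')) := by
    have h1 : ∀ i, ∑ j ∈ T \ s, (r / 8 - (d - 1) / 2 * r * (u i + u j - 2 * (u i * u j))) =
        (d : ℝ) ^ 6 * (r / 8) - (d - 1) / 2 * r * (d ^ 6 * u i + p' - 2 * (u i * p')) := by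
      intro i
      rw [sum_sub_distrib, sum_const, hTs, ← mul_sum, sum_sub_distrib, sum_add_distrib, sum_const,
        hTs, ← mul_sum, ← mul_sum, ← hp']
      simp only [nsmul_eq_mul, Nat.cast_pow]
    rw [sum_congr rfl fun i _ => h1 i]
    rw [sum_sub_distrib, sum_const, hscard, ← mul_sum, sum_sub_distrib, sum_add_distrib, sum_const,
      hscard, ← mul_sum, ← mul_sum, ← sum_mul, ← hp]
    simp only [nsmul_eq_mul, Nat.cast_pow]
    ring
  rw [hsum2] at hsum
  have hD64 : (64 : ℝ) ≤ (d : ℝ) ^ 6 := by exact_mod_cast hd6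
  set D : ℝ := (d : ℝ) ^ 6 with hD
  have hfin := hen.trans hsum
  have hp2 : p' = D - p := by linarith
  rw [hp2] at hfin
  have h1 : D * (p + (D - p)) - 2 * (p * (D - p)) ≥ D ^ 2 / 2 := by nlinarith [sq_nonneg (p - D / 2)]
  have h2 : (d - 1) / 2 * r * (D ^ 2 / 2) ≤
      (d - 1) / 2 * r * (D * (p + (D - p)) - 2 * (p * (D - p))) := by
    refine mul_le_mul_of_nonneg_left h1 ?_
    exact mul_nonneg (by linarith) hr.le
  have h3 : -((2 * d - 1) * D * r) ≤ D * D * (r / 8) - (d - 1) / 2 * r * (D ^ 2 / 2) := by linarith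
  have h4 : D * r * (D * (2 * d - 3) / 8) ≤ D * r * (2 * d - 1) := by nlinarith
  have h5 : D * (2 * d - 3) / 8 ≤ 2 * d - 1 :=
    le_of_mul_le_mul_left h4 (mul_pos (by linarith) hr)
  have h6 : 64 * (2 * (d : ℝ) - 3) ≤ D * (2 * d - 3) :=
    mul_le_mul_of_nonneg_right hD64 (by linarith)
  linarith

end Sys

end Pool.Agent.Helper55.RD
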