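import Mathlib
import Pool.Agent.Helper55.RD.Core2

/-!
The local lower bound for the Arakelov-Green function at preperiodic points.
-/

set_option autoImplicit false

open Polynomial Finset Pool.Agent.Helper33

namespace Pool.Agent.Helper55.RD

variable {K : Type*} [Field K] {v : DV K}

/-- number of points needed in the local lower bound -/
def N₀ (d : ℕ) : ℕ := ram (n₀ d) (d ^ 11 + d ^ 11) + (d + d)

lemma trF_smul (d : ℕ) (N : M2 K) (κ : K) (F G : K[X]) :
    trF d N κ F G = C κ * trF d N 1 F G := by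
  simp only [trF, C_neg, C_mul, C_1]; ring

lemma trG_smul (d : ℕ) (N : M2 K) (κ : K) (F G : K[X]) :
    trG d N κ F G = C κ * trG d N 1 F G := by
  simp only [trG, C_neg, C_mul, C_1]; ring

namespace Sys

variable {d : ℕ} {ι : Type*} {S : Sys v d ι}

/-- coordinates in which three given points are `0, 1, ∞` -/
lemma exists_star (hd : 2 ≤ d) (S : Sys v d ι) {a b c : ι} (hab : a ≠ b) (hac : a ≠ c)
    (hbc : b ≠ c) : ∃ (N : M2 K) (κ : K) (S' : Sys v d ι), N.det ≠ 0 ∧ κ ≠ 0 ∧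
      S'.F = trF d N κ S.F S.G ∧ S'.G = trG d N κ S.F S.G ∧ S'.Good ∧ Cont0 v S'.F S'.G ∧
      (∀ i j, i ≠ j → S'.g i j = S.g i j) ∧ v.o (wedge (S'.x a) (S'.x b)) = 0 ∧
      v.o (wedge (S'.x a) (S'.x c)) = 0 ∧ v.o (wedge (S'.x b) (S'.x c)) = 0 := by
  set A := S.x a with hA
  set B := S.x b with hB
  set E := S.x c with hE
  have wAB : wedge A B ≠ 0 := S.hx a b hab
  have wEB : wedge E B ≠ 0 := S.hx c b hbc.symm
  have wAE : wedge A E ≠ 0 := S.hx a c hac
  set l1 := wedge E B with hl1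
  set l2 := wedge A E with hl2
  have hrel1 : l1 * A.1 + l2 * B.1 = wedge A B * E.1 := by
    simp only [hl1, hl2, wedge]; ring
  have hrel2 : l1 * A.2 + l2 * B.2 = wedge A B * E.2 := by
    simp only [hl1, hl2, wedge]; ring
  let N : M2 K := ⟨l1 * A.1, l2 * B.1, l1 * A.2, l2 * B.2⟩
  have hNdet : N.det = l1 * l2 * wedge A B := by
    simp only [N, M2.det, wedge]; ring
  have hN : N.det ≠ 0 := by
    rw [hNdet]; exact mul_ne_zero (mul_ne_zero wEB wAE) wAB
  have hne : trF d N 1 S.F S.G ≠ 0 ∨ trG d N 1 S.F S.G ≠ 0 := by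
    by_contra hcon
    rw [not_or, not_not, not_not] at hcon
    have h1 := resultant_tr N 1 S.hF S.hG
    rw [hcon.1, hcon.2, resultant_zero_right] at h1
    rw [zero_pow (by omega), zero_mul] at h1
    exact mul_ne_zero (pow_ne_zero _ (mul_ne_zero (pow_ne_zero _ one_ne_zero) hN))
      (mul_ne_zero (pow_ne_zero _ hN) S.hR) h1.symm
  obtain ⟨κ, hκ, hi1, hi2, hcont⟩ := exists_content v hne
  rw [← trF_smul] at hi1 hcont
  rw [← trG_smul] at hi2 hcont
  obtain ⟨S', hF', hG', -, hprim, hg, happ⟩ := S.exists_tr hd N hN κ hκ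
  refine ⟨N, κ, S', hN, hκ, hF', hG', ⟨by rw [hF']; exact hi1, by rw [hG']; exact hi2, hprim⟩,
    by rw [hF', hG']; exact hcont, hg, ?_⟩
  obtain ⟨la, hla, ha⟩ := happ a
  obtain ⟨lb, hlb, hb⟩ := happ b
  obtain ⟨lc, hlc, hc⟩ := happ c
  have ha1 := congrArg Prod.fst ha
  have ha2 := congrArg Prod.snd ha
  have hb1 := congrArg Prod.fst hb
  have hb2 := congrArg Prod.snd hb
  have hc1 := congrArg Prod.fst hc
  have hc2 := congrArg Prod.snd hc
  simp only [M2.app, N, ← hA, ← hB, ← hE] at ha1 ha2 hb1 hb2 hc1 hc2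
  have xa2 : (S'.x a).2 = 0 := by
    have : l2 * wedge A B * (S'.x a).2 = 0 := by
      simp only [wedge]
      linear_combination A.1 * ha2 - A.2 * ha1
    exact (mul_eq_zero.1 this).resolve_left (mul_ne_zero wAE wAB)
  have xb1 : (S'.x b).1 = 0 := by
    have : l1 * wedge A B * (S'.x b).1 = 0 := by
      simp only [wedge]
      linear_combination B.2 * hb1 - B.1 * hb2
    exact (mul_eq_zero.1 this).resolve_left (mul_ne_zero wEB wAB)
  have xc : (S'.x c).1 = (S'.x c).2 := by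
    have h3 : wedge A B * ((l1 * A.1 * (S'.x c).1 + l2 * B.1 * (S'.x c).2)) =
        lc * (l1 * A.1 + l2 * B.1) := by rw [hc1, hrel1]; ring
    have h4 : wedge A B * ((l1 * A.2 * (S'.x c).1 + l2 * B.2 * (S'.x c).2)) =
        lc * (l1 * A.2 + l2 * B.2) := by rw [hc2, hrel2]; ring
    have h5 : l1 * l2 * wedge A B * wedge A B * ((S'.x c).1 - (S'.x c).2) = 0 := by
      have e1 : l1 * wedge A B * (wedge A B * (S'.x c).1 - lc) = 0 := by
        have : wedge A B = A.1 * B.2 - A.2 * B.1 := rfl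
        linear_combination B.2 * h3 - B.1 * h4 + (l1 * wedge A B * (S'.x c).1 - l1 * lc) * this
      have e2 : l2 * wedge A B * (wedge A B * (S'.x c).2 - lc) = 0 := by
        have : wedge A B = A.1 * B.2 - A.2 * B.1 := rfl
        linear_combination A.1 * h4 - A.2 * h3 + (l2 * wedge A B * (S'.x c).2 - l2 * lc) * this
      linear_combination l2 * e1 - l1 * e2
    have h6 := (mul_eq_zero.1 h5).resolve_left
      (mul_ne_zero (mul_ne_zero (mul_ne_zero wEB wAE) wAB) wAB)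
    exact sub_eq_zero.1 h6
  have pa : (S'.x a).1 ≠ 0 ∧ v.o (S'.x a).1 = 0 := by
    rcases (hprim a).2.2 with h | h
    · exact h
    · exact absurd xa2 h.1
  have pb : (S'.x b).2 ≠ 0 ∧ v.o (S'.x b).2 = 0 := by
    rcases (hprim b).2.2 with h | h
    · exact absurd xb1 h.1
    · exact h
  have pc : (S'.x c).2 ≠ 0 ∧ v.o (S'.x c).2 = 0 := by
    rcases (hprim c).2.2 with h | h
    · rw [xc] at h; exact h
    · exact h
  refine ⟨?_, ?_, ?_⟩
  · have : wedge (S'.x a) (S'.x b) = (S'.x a).1 * (S'.x b).2 := by simp [wedge, xa2]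
    rw [this, v.mul _ _ pa.1 pb.1, pa.2, pb.2, add_zero]
  · have : wedge (S'.x a) (S'.x c) = (S'.x a).1 * (S'.x c).2 := by simp [wedge, xa2]
    rw [this, v.mul _ _ pa.1 pc.1, pa.2, pc.2, add_zero]
  · have : wedge (S'.x b) (S'.x c) = -((S'.x b).2 * (S'.x c).2) := by simp [wedge, xb1, xc]
    rw [this, v.o_neg, v.mul _ _ pb.1 pc.1, pb.2, pc.2, add_zero]

/-- **The local lower bound.** -/
theorem lower_bound [Finite ι] [DecidableEq ι] (hd : 2 ≤ d) (S S₀ : Sys v d ι) (hS₀ : S₀.Good)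
    (hg₀ : ∀ i j, i ≠ j → S₀.g i j = S.g i j)
    (hmin : ∀ (N : M2 K) (κ : K), N.det ≠ 0 → κ ≠ 0 → IntP v (trF d N κ S.F S.G) →
      IntP v (trG d N κ S.F S.G) → v.o (resultant S₀.F S₀.G d d) ≤
        v.o (resultant (trF d N κ S.F S.G) (trG d N κ S.F S.G) d d))
    (T : Finset ι) (hT : N₀ d ≤ T.card) :
    ∃ i ∈ T, ∃ j ∈ T, i ≠ j ∧ ep d * S₀.r ≤ S₀.g i j := by
  classical
  by_contra hcon
  push Not at hcon
  have hr0 := hS₀.r_nonneg hd
  have hd2 : (2 : ℝ) ≤ d := by exact_mod_cast hd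
  rcases hr0.eq_or_lt with hr | hr
  · -- good reduction
    obtain ⟨T', hT', hT'c⟩ := exists_subset_card_eq (show d ^ 1 + d ^ 1 ≤ T.card by
      unfold N₀ at hT; rw [pow_one]; omega)
    obtain ⟨s, hs, hsc, hen⟩ := hS₀.energy hd 1 T' hT'c
    rw [← hr, mul_zero, neg_zero] at hen
    have hsc' : (T' \ s).card = d ^ 1 := by rw [card_sdiff_of_subset hs, hT'c, hsc]; omega
    have hne : s.Nonempty := card_pos.1 (by rw [hsc, pow_one]; omega)
    have hne' : (T' \ s).Nonempty := card_pos.1 (by rw [hsc', pow_one]; omega)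
    have hlt : ∑ i ∈ s, ∑ j ∈ T' \ s, S₀.g i j < 0 := by
      refine sum_neg (fun i hi => sum_neg (fun j hj => ?_) hne') hne
      rw [mem_sdiff] at hj
      have h1 := hcon i (hT' (hs hi)) j (hT' hj.1) (fun h => hj.2 (h ▸ hi))
      rwa [← hr, mul_zero] at h1
    linarith
  · rcases ramsey (fun i j => -(ep d * S₀.r) ≤ S₀.g i j) (fun i j h => by rw [S₀.g_comm]; exact h)
      (n₀ d) (d ^ 11 + d ^ 11) T (by unfold N₀ at hT; omega) with ⟨A, hA, hAc, hAP⟩ | ⟨B, hB, hBc, hBP⟩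
    · -- the clique
      obtain ⟨U, hU, hUc⟩ := exists_subset_card_eq (show 3 ≤ A.card by
        rw [hAc]; unfold n₀; omega)
      obtain ⟨a, b, c, hab, hac, hbc, rfl⟩ := card_eq_three.1 hUc
      have ha : a ∈ A := hU (by simp)
      have hb : b ∈ A := hU (by simp)
      have hc : c ∈ A := hU (by simp)
      obtain ⟨N, κ, S', hN, hκ, hF', hG', hS', h0, hg, w1, w2, w3⟩ := S.exists_star hd hab hac hbc
      have hle : S₀.r ≤ S'.r := by
        have h1 := hmin N κ hN hκ (by rw [← hF']; exact hS'.intF) (by rw [← hG']; exact hS'.intG)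
        rw [← hF', ← hG'] at h1
        unfold Sys.r
        have : (0 : ℝ) ≤ d * (d - 1) := mul_nonneg (by linarith) (by linarith)
        exact div_le_div_of_nonneg_right (by exact_mod_cast h1) this
      have hpos := ep_pos hd
      have hle2 : ep d * S₀.r ≤ ep d * S'.r := mul_le_mul_of_nonneg_left hle hpos.le
      refine S'.core hd hS' h0 (hr.trans_le hle) A ha hb hc hab hac hbc w1 w2 w3 ?_ hAc.ge
      intro i hi j hj hij
      rw [hg i j hij, ← hg₀ i j hij, abs_le]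
      have h1 := hAP i hi j hj hij
      have h2 := hcon i (hA hi) j (hA hj) hij
      constructor <;> linarith
    · obtain ⟨s, hs, hsc, hen⟩ := hS₀.energy hd 11 B hBc
      have hsc' : (B \ s).card = d ^ 11 := by rw [card_sdiff_of_subset hs, hBc, hsc]; omega
      have hle : ∑ i ∈ s, ∑ j ∈ B \ s, S₀.g i j ≤ ∑ i ∈ s, ∑ j ∈ B \ s, -(ep d * S₀.r) := by
        refine sum_le_sum fun i hi => sum_le_sum fun j hj => ?_
        rw [mem_sdiff] at hj
        exact (not_le.1 (hBP i (hs hi) j hj.1 (fun h => hj.2 (h ▸ hi)))).le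
      rw [sum_const, sum_const, hsc, hsc'] at hle
      simp only [nsmul_eq_mul, Nat.cast_pow] at hle
      have h1 := hen.trans hle
      have hpos : (0 : ℝ) < (d : ℝ) ^ 11 * S₀.r := by positivity
      have h2 : (d : ℝ) ^ 11 * S₀.r * (d ^ 11 * ep d) ≤ (d : ℝ) ^ 11 * S₀.r * (2 * d - 1) := by
        nlinarith
      have h3 := le_of_mul_le_mul_left h2 hpos
      have h4 := ep_eq hd
      have h5 : (d : ℝ) ^ 11 * ep d = (d : ℝ) ^ 9 / 128 := by
        calc (d : ℝ) ^ 11 * ep d = (d : ℝ) ^ 9 * ((d : ℝ) ^ 2 * ep d) := by ring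
          _ = (d : ℝ) ^ 9 / 128 := by rw [h4]; ring
      rw [h5] at h3
      have h6 : (256 : ℝ) ≤ (d : ℝ) ^ 8 := by
        calc (256 : ℝ) = 2 ^ 8 := by norm_num
          _ ≤ (d : ℝ) ^ 8 := pow_le_pow_left₀ (by norm_num) hd2 8
      have h7 : 256 * (d : ℝ) ≤ d ^ 9 := by
        calc 256 * (d : ℝ) ≤ (d : ℝ) ^ 8 * d := mul_le_mul_of_nonneg_right h6 (by linarith)
          _ = (d : ℝ) ^ 9 := by ring
      linarith

/-- **Minimal model and the local lower bound.** -/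
theorem exists_min_model [Finite ι] [DecidableEq ι] (hd : 2 ≤ d) (S : Sys v d ι) :
    ∃ (N : M2 K) (κ : K) (S₀ : Sys v d ι), N.det ≠ 0 ∧ κ ≠ 0 ∧ S₀.F = trF d N κ S.F S.G ∧
      S₀.G = trG d N κ S.F S.G ∧ S₀.Good ∧ (∀ i j, i ≠ j → S₀.g i j = S.g i j) ∧
      (∀ i, ∃ l : K, l ≠ 0 ∧ N.app (S₀.x i) = (l * (S.x i).1, l * (S.x i).2)) ∧
      ∀ T : Finset ι, N₀ d ≤ T.card → ∃ i ∈ T, ∃ j ∈ T, i ≠ j ∧ ep d * S₀.r ≤ S₀.g i j := by
  classical
  let P : ℕ → Prop := fun n => ∃ (N : M2 K) (κ : K), N.det ≠ 0 ∧ κ ≠ 0 ∧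
    IntP v (trF d N κ S.F S.G) ∧ IntP v (trG d N κ S.F S.G) ∧
    v.o (resultant (trF d N κ S.F S.G) (trG d N κ S.F S.G) d d) ≤ n
  have hne : ∀ N : M2 K, N.det ≠ 0 → trF d N 1 S.F S.G ≠ 0 ∨ trG d N 1 S.F S.G ≠ 0 := by
    intro N hN
    by_contra hcon
    rw [not_or, not_not, not_not] at hcon
    have h1 := resultant_tr N 1 S.hF S.hG
    rw [hcon.1, hcon.2, resultant_zero_right] at h1
    rw [zero_pow (by omega), zero_mul] at h1
    exact mul_ne_zero (pow_ne_zero _ (mul_ne_zero (pow_ne_zero _ one_ne_zero) hN))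
      (mul_ne_zero (pow_ne_zero _ hN) S.hR) h1.symm
  have hex : ∃ n, P n := by
    let N : M2 K := ⟨1, 0, 0, 1⟩
    have hN : N.det ≠ 0 := by simp [N, M2.det]
    obtain ⟨κ, hκ, hi1, hi2, -⟩ := exists_content v (hne N hN)
    rw [← trF_smul] at hi1
    rw [← trG_smul] at hi2
    exact ⟨_, N, κ, hN, hκ, hi1, hi2, Int.self_le_toNat _⟩
  obtain ⟨N, κ, hN, hκ, hi1, hi2, hle⟩ := Nat.find_spec hex
  obtain ⟨S₀, hF', hG', -, hprim, hg, happ⟩ := S.exists_tr hd N hN κ hκ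
  have hgood : S₀.Good := ⟨by rw [hF']; exact hi1, by rw [hG']; exact hi2, hprim⟩
  refine ⟨N, κ, S₀, hN, hκ, hF', hG', hgood, hg, happ, fun T hT => ?_⟩
  refine lower_bound hd S S₀ hgood hg ?_ T hT
  intro N' κ' hN' hκ' hi1' hi2'
  rw [hF', hG']
  refine hle.trans ?_
  have hres0 : resultant (trF d N' κ' S.F S.G) (trG d N' κ' S.F S.G) d d ≠ 0 := by
    rw [resultant_tr N' κ' S.hF S.hG]
    exact mul_ne_zero (pow_ne_zero _ (mul_ne_zero (pow_ne_zero _ hκ') hN'))
      (mul_ne_zero (pow_ne_zero _ hN') S.hR)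
  have h0 : 0 ≤ v.o (resultant (trF d N' κ' S.F S.G) (trG d N' κ' S.F S.G) d d) := by
    have h1 := DV.ge_le (ge_resultant (m := d) (n := d) hi1' hi2') hres0
    have h2 : (0 : ℝ) ≤ v.o (resultant (trF d N' κ' S.F S.G) (trG d N' κ' S.F S.G) d d) := by
      simpa using h1
    exact_mod_cast h2
  have h3 : P (v.o (resultant (trF d N' κ' S.F S.G) (trG d N' κ' S.F S.G) d d)).toNat :=
    ⟨N', κ', hN', hκ', hi1', hi2', Int.self_le_toNat _⟩
  have h4 := Nat.find_min' hex h3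
  have h5 : ((Nat.find hex : ℕ) : ℤ) ≤
      (v.o (resultant (trF d N' κ' S.F S.G) (trG d N' κ' S.F S.G) d d)).toNat := by
    exact_mod_cast h4
  rw [Int.toNat_of_nonneg h0] at h5
  exact h5

end Sys

end Pool.Agent.Helper55.RD
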