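import Mathlib
import Pool.Agent.Helper51.RatTree
import Pool.Agent.Helper55.RD.LC

/-!
The vertex of the tree attached to a change of coordinates; good reduction.
-/

set_option autoImplicit false

open Polynomial Finset Pool.Agent.Helper33 Pool.Agent.Helper51.RatTree

namespace Pool.Agent.Helper55.RD

variable {K : Type*} [Field K] {v : DV K}

lemma not_ge_one_of_prim {X : K × K} (hX : Prim v X) (h1 : v.ge 1 X.1) (h2 : v.ge 1 X.2) : False := by
  rcases hX.2.2 with ⟨h3, h4⟩ | ⟨h3, h4⟩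
  · have := DV.ge_le h1 h3
    rw [h4] at this
    norm_num at this
  · have := DV.ge_le h2 h3
    rw [h4] at this
    norm_num at this

lemma ge_int_iff {x : K} (hx : x ≠ 0) (n : ℤ) : v.ge (n : ℝ) x ↔ n ≤ v.o x := by
  constructor
  · intro h
    have := DV.ge_le h hx
    exact_mod_cast this
  · intro h
    right
    exact_mod_cast h

/-- The order of the scaling factor: first case. -/
lemma nn_aux {p q s t : K} (hΔ : p * t - q * s ≠ 0) (ht : t ≠ 0) (hs : v.ge 0 (s / t)) {X : K × K}
    (hX : Prim v X) {l x : K} (hl : l ≠ 0) (h1 : p * X.1 + q * X.2 = l * x)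
    (h2 : s * X.1 + t * X.2 = l) :
    v.o l = v.o (p * t - q * s) - v.o t - nn v (q / t) (v.o (p * t - q * s) - 2 * v.o t) x := by
  set Δ := p * t - q * s with hΔd
  set m : ℤ := v.o Δ - v.o l - v.o t with hm
  have e1 : Δ * X.1 = l * t * (x - q / t) := by
    have : l * t * (x - q / t) = t * (l * x) - q * l := by field_simp
    rw [this, ← h1, ← h2, hΔd]; ring
  have e2 : X.2 + s / t * X.1 = l / t := by
    rw [← h2]; field_simp; ring
  have hlt : l / t ≠ 0 := div_ne_zero hl ht
  have hgelt : v.ge 0 (l / t) := by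
    rw [← e2]
    have := DV.ge_mul hs hX.1
    rw [add_zero] at this
    exact DV.ge_add hX.2.1 this
  have holt : v.o t ≤ v.o l := by
    have := (ge_int_iff (v := v) hlt 0).1 (by exact_mod_cast hgelt)
    rw [v.o_div _ _ hl ht] at this
    omega
  have key : nn v (q / t) (v.o Δ - 2 * v.o t) x = m := by
    apply le_antisymm
    · by_contra hcon
      push Not at hcon
      have k1 : m + 1 ≤ v.o Δ - 2 * v.o t := le_trans hcon (nn_le x)
      have g1 : v.ge 1 (l / t) := by
        have : (1 : ℤ) ≤ v.o (l / t) := by rw [v.o_div _ _ hl ht]; omega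
        have := (ge_int_iff (v := v) hlt 1).2 this
        exact_mod_cast this
      have g2 : v.ge 1 X.1 := by
        by_cases hx : x = q / t
        · left
          have : Δ * X.1 = 0 := by rw [e1, hx, sub_self, mul_zero]
          exact (mul_eq_zero.1 this).resolve_left hΔ
        · have k2 : nn v (q / t) (v.o Δ - 2 * v.o t) x ≤ v.o (x - q / t) := by
            unfold nn
            rw [if_neg hx]
            exact min_le_left _ _
          have hx' : x - q / t ≠ 0 := sub_ne_zero.2 hx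
          have hX1 : X.1 ≠ 0 := by
            intro h
            rw [h, mul_zero] at e1
            exact mul_ne_zero (mul_ne_zero hl ht) hx' e1.symm
          have k3 := congrArg v.o e1
          rw [v.mul _ _ hΔ hX1, v.mul _ _ (mul_ne_zero hl ht) hx', v.mul _ _ hl ht] at k3
          have k4 : (1 : ℤ) ≤ v.o X.1 := by omega
          have := (ge_int_iff (v := v) hX1 1).2 k4
          exact_mod_cast this
      have g3 : v.ge 1 X.2 := by
        have : X.2 = l / t - s / t * X.1 := by rw [← e2]; ring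
        rw [this]
        have h5 := DV.ge_mul hs g2
        rw [zero_add] at h5
        exact DV.ge_sub g1 h5
      exact not_ge_one_of_prim hX g2 g3
    · unfold nn
      by_cases hx : x = q / t
      · rw [if_pos hx]; omega
      · rw [if_neg hx]
        refine le_min ?_ (by omega)
        have hx' : x - q / t ≠ 0 := sub_ne_zero.2 hx
        have hX1 : X.1 ≠ 0 := by
          intro h
          rw [h, mul_zero] at e1
          exact mul_ne_zero (mul_ne_zero hl ht) hx' e1.symm
        have k3 := congrArg v.o e1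
        rw [v.mul _ _ hΔ hX1, v.mul _ _ (mul_ne_zero hl ht) hx', v.mul _ _ hl ht] at k3
        have k4 := (ge_int_iff (v := v) hX1 0).1 (by exact_mod_cast hX.1)
        omega
  rw [key]
  omega

/-- the Gromov product of two points at a vertex -/
noncomputable def gp (v : DV K) (a : K) (r : ℤ) (x y : K) : ℤ :=
  v.o (x - y) + r - nn v a r x - nn v a r y

/-- base vertex of a change of coordinates -/
theorem exists_base (v : DV K) (N : M2 K) (hN : N.det ≠ 0) : ∃ (a : K) (r : ℤ),
    (N = ⟨1, 0, 0, 1⟩ → a = 0 ∧ r = 0) ∧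
    ∀ (x y : K), x ≠ y → ∀ (X Y : K × K), Prim v X → Prim v Y → ∀ l m : K, l ≠ 0 → m ≠ 0 →
      N.app X = (l * x, l) → N.app Y = (m * y, m) → W v X Y = gp v a r x y := by
  have hW : ∀ (x y : K), x ≠ y → ∀ (X Y : K × K) (l m : K), l ≠ 0 → m ≠ 0 →
      N.app X = (l * x, l) → N.app Y = (m * y, m) →
      W v X Y = v.o l + v.o m + v.o (x - y) - v.o N.det := by
    intro x y hxy X Y l m hl hm hX hY
    have h1 := N.wedge_app X Y
    rw [hX, hY] at h1
    have h2 : wedge (l * x, l) (m * y, m) = l * m * (x - y) := by simp only [wedge]; ring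
    rw [h2] at h1
    have hxy' : x - y ≠ 0 := sub_ne_zero.2 hxy
    have h3 : wedge X Y ≠ 0 := by
      intro h
      rw [h, mul_zero] at h1
      exact mul_ne_zero (mul_ne_zero hl hm) hxy' h1
    have h4 := congrArg v.o h1
    rw [v.mul _ _ (mul_ne_zero hl hm) hxy', v.mul _ _ hl hm, v.mul _ _ hN h3] at h4
    rw [W_of_ne h3]
    omega
  by_cases hcase : N.e ≠ 0 ∧ v.ge 0 (N.c / N.e)
  · obtain ⟨he, hc⟩ := hcase
    refine ⟨N.b / N.e, v.o N.det - 2 * v.o N.e, ?_, ?_⟩
    · rintro rfl
      simp [M2.det, v.o_one]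
    · intro x y hxy X Y hX hY l m hl hm hXN hYN
      rw [hW x y hxy X Y l m hl hm hXN hYN]
      have a1 := congrArg Prod.fst hXN
      have a2 := congrArg Prod.snd hXN
      have b1 := congrArg Prod.fst hYN
      have b2 := congrArg Prod.snd hYN
      simp only [M2.app] at a1 a2 b1 b2
      have k1 := nn_aux (p := N.a) (q := N.b) (s := N.c) (t := N.e) hN he hc hX hl a1 a2
      have k2 := nn_aux (p := N.a) (q := N.b) (s := N.c) (t := N.e) hN he hc hY hm b1 b2
      rw [k1, k2, gp]
      unfold M2.det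
      ring
  · have hc0 : N.c ≠ 0 := by
      intro h
      apply hcase
      refine ⟨?_, by rw [h, zero_div]; exact DV.ge_zero _⟩
      intro h2
      apply hN
      simp [M2.det, h, h2]
    have hec : v.ge 0 (N.e / N.c) := by
      by_cases he : N.e = 0
      · rw [he, zero_div]; exact DV.ge_zero _
      · have h1 : ¬ v.ge 0 (N.c / N.e) := fun h => hcase ⟨he, h⟩
        have h2 : ¬ (0 : ℤ) ≤ v.o (N.c / N.e) := fun h => h1 (by
          have := (ge_int_iff (v := v) (div_ne_zero hc0 he) 0).2 h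
          exact_mod_cast this)
        have h3 : (0 : ℤ) ≤ v.o (N.e / N.c) := by
          rw [v.o_div _ _ he hc0]
          rw [v.o_div _ _ hc0 he] at h2
          omega
        have := (ge_int_iff (v := v) (div_ne_zero he hc0) 0).2 h3
        exact_mod_cast this
    have hΔ : N.b * N.c - N.a * N.e ≠ 0 := by
      intro h
      apply hN
      unfold M2.det
      linear_combination -h
    have hΔo : v.o (N.b * N.c - N.a * N.e) = v.o N.det := by
      rw [← v.o_neg]
      congr 1
      unfold M2.det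
      ring
    refine ⟨N.a / N.c, v.o N.det - 2 * v.o N.c, ?_, ?_⟩
    · rintro rfl
      exact absurd rfl hc0
    · intro x y hxy X Y hX hY l m hl hm hXN hYN
      rw [hW x y hxy X Y l m hl hm hXN hYN]
      have a1 := congrArg Prod.fst hXN
      have a2 := congrArg Prod.snd hXN
      have b1 := congrArg Prod.fst hYN
      have b2 := congrArg Prod.snd hYN
      simp only [M2.app] at a1 a2 b1 b2
      have hX' : Prim v (X.2, X.1) := ⟨hX.2.1, hX.1, hX.2.2.symm⟩
      have hY' : Prim v (Y.2, Y.1) := ⟨hY.2.1, hY.1, hY.2.2.symm⟩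
      have k1 := nn_aux (p := N.b) (q := N.a) (s := N.e) (t := N.c) hΔ hc0 hec hX' hl
        (by rw [← a1]; ring) (by rw [← a2]; ring)
      have k2 := nn_aux (p := N.b) (q := N.a) (s := N.e) (t := N.c) hΔ hc0 hec hY' hm
        (by rw [← b1]; ring) (by rw [← b2]; ring)
      rw [hΔo] at k1 k2
      rw [k1, k2, gp]
      ring

/-! good reduction -/

lemma ge_pow_sub_pow {c : ℝ} {a b : K} (ha : v.ge 0 a) (hb : v.ge 0 b) (h : v.ge c (a - b)) (n : ℕ) :
    v.ge c (a ^ n - b ^ n) := by
  induction n with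
  | zero => simp [DV.ge_zero]
  | succ n ih =>
    have e : a ^ (n + 1) - b ^ (n + 1) = a ^ n * (a - b) + (a ^ n - b ^ n) * b := by ring
    rw [e]
    have h1 := DV.ge_mul (DV.ge_pow ha n) h
    have h2 := DV.ge_mul ih hb
    rw [mul_zero, zero_add] at h1
    rw [add_zero] at h2
    exact DV.ge_add h1 h2

lemma ge_hom_sub {c : ℝ} {n : ℕ} {f : K[X]} (hf : IntP v f) {a b a' b' : K} (ha : v.ge 0 a)
    (hb : v.ge 0 b) (ha' : v.ge 0 a') (hb' : v.ge 0 b') (h1 : v.ge c (a - a'))
    (h2 : v.ge c (b - b')) : v.ge c (hom n f a b - hom n f a' b') := by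
  rw [hom, hom, ← sum_sub_distrib]
  refine DV.ge_sum _ _ fun kl _ => ?_
  have e : (algebraMap K K) (f.coeff kl.1) * a ^ kl.1 * b ^ kl.2 -
      (algebraMap K K) (f.coeff kl.1) * a' ^ kl.1 * b' ^ kl.2 =
      f.coeff kl.1 * ((a ^ kl.1 - a' ^ kl.1) * b ^ kl.2 + a' ^ kl.1 * (b ^ kl.2 - b' ^ kl.2)) := by
    simp only [Algebra.algebraMap_self, RingHom.id_apply]; ring
  rw [e]
  have k1 := DV.ge_mul (ge_pow_sub_pow ha ha' h1 kl.1) (DV.ge_pow hb kl.2)
  have k2 := DV.ge_mul (DV.ge_pow ha' kl.1) (ge_pow_sub_pow hb hb' h2 kl.2)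
  rw [mul_zero, add_zero] at k1
  rw [mul_zero, zero_add] at k2
  have := DV.ge_mul (hf kl.1) (DV.ge_add k1 k2)
  rwa [zero_add] at this

/-- the Bezoutian -/
lemma ge_bezoutian {n : ℕ} {f g : K[X]} (hf : IntP v f) (hg : IntP v g) {x y : K × K}
    (hx : Prim v x) (hy : Prim v y) {c : ℝ} (h : v.ge c (wedge x y)) :
    v.ge c (hom n f x.1 x.2 * hom n g y.1 y.2 - hom n g x.1 x.2 * hom n f y.1 y.2) := by
  have key : ∀ s : K, v.ge 0 s → v.ge c (y.1 - s * x.1) → v.ge c (y.2 - s * x.2) →
      v.ge c (hom n f x.1 x.2 * hom n g y.1 y.2 - hom n g x.1 x.2 * hom n f y.1 y.2) := by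
    intro s hs h1 h2
    have i1 : v.ge 0 (s * x.1) := by have := DV.ge_mul hs hx.1; rwa [add_zero] at this
    have i2 : v.ge 0 (s * x.2) := by have := DV.ge_mul hs hx.2.1; rwa [add_zero] at this
    have k1 := ge_hom_sub (n := n) hf hy.1 hy.2.1 i1 i2 h1 h2
    have k2 := ge_hom_sub (n := n) hg hy.1 hy.2.1 i1 i2 h1 h2
    rw [hom_smul_smul] at k1 k2
    have e : hom n f x.1 x.2 * hom n g y.1 y.2 - hom n g x.1 x.2 * hom n f y.1 y.2 =
        hom n f x.1 x.2 * (hom n g y.1 y.2 - s ^ n * hom n g x.1 x.2) -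
        hom n g x.1 x.2 * (hom n f y.1 y.2 - s ^ n * hom n f x.1 x.2) := by ring
    rw [e]
    have l1 := DV.ge_mul (ge_hom_zero (n := n) hf hx.1 hx.2.1) k2
    have l2 := DV.ge_mul (ge_hom_zero (n := n) hg hx.1 hx.2.1) k1
    rw [zero_add] at l1 l2
    exact DV.ge_sub l1 l2
  rcases hx.2.2 with ⟨h3, h4⟩ | ⟨h3, h4⟩
  · have hinv : v.ge 0 x.1⁻¹ := by
      have := DV.ge_inv (v := v) (c := 0) h3 (by rw [h4]; simp)
      simpa using this
    refine key (y.1 * x.1⁻¹) ?_ ?_ ?_
    · have := DV.ge_mul hy.1 hinv; rwa [add_zero] at this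
    · rw [mul_assoc, inv_mul_cancel₀ h3, mul_one, sub_self]; exact DV.ge_zero _
    · have e : y.2 - y.1 * x.1⁻¹ * x.2 = wedge x y * x.1⁻¹ := by
        simp only [wedge]; field_simp
      rw [e]
      have := DV.ge_mul h hinv; rwa [add_zero] at this
  · have hinv : v.ge 0 x.2⁻¹ := by
      have := DV.ge_inv (v := v) (c := 0) h3 (by rw [h4]; simp)
      simpa using this
    refine key (y.2 * x.2⁻¹) ?_ ?_ ?_
    · have := DV.ge_mul hy.2.1 hinv; rwa [add_zero] at this
    · have e : y.1 - y.2 * x.2⁻¹ * x.1 = -(wedge x y * x.2⁻¹) := by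
        simp only [wedge]; field_simp; ring
      rw [e]
      have := DV.ge_mul h hinv
      rw [add_zero] at this
      exact DV.ge_neg this
    · rw [mul_assoc, inv_mul_cancel₀ h3, mul_one, sub_self]; exact DV.ge_zero _

lemma Sys.Good.W_le_of_good {d : ℕ} (hd : 2 ≤ d) {ι : Type*} {S : Sys v d ι} (hS : S.Good)
    (hr : S.r = 0) {i j : ι} (hij : i ≠ j) (hφ : S.φ i ≠ S.φ j) :
    W v (S.x i) (S.x j) ≤ W v (S.x (S.φ i)) (S.x (S.φ j)) := by
  have hc : ∀ i, v.o (S.c i) = 0 := by
    intro i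
    have h1 := hS.c_nonneg i
    have h2 := hS.c_le hd i
    rw [hr, mul_zero] at h2
    have h3 : (v.o (S.c i) : ℝ) = 0 := le_antisymm h2 h1
    exact_mod_cast h3
  have h1 := ge_bezoutian (n := d) hS.intF hS.intG (hS.prim i) (hS.prim j)
    (DV.ge_self (v := v) (wedge (S.x i) (S.x j)))
  rw [S.hΦF, S.hΦG, S.hΦF, S.hΦG] at h1
  have e : S.c i * (S.x (S.φ i)).1 * (S.c j * (S.x (S.φ j)).2) -
      S.c i * (S.x (S.φ i)).2 * (S.c j * (S.x (S.φ j)).1) =
      S.c i * S.c j * wedge (S.x (S.φ i)) (S.x (S.φ j)) := by simp only [wedge]; ring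
  rw [e] at h1
  have hw := S.hx _ _ hφ
  have h2 := DV.ge_le h1 (mul_ne_zero (mul_ne_zero (S.hc i) (S.hc j)) hw)
  rw [v.mul _ _ (mul_ne_zero (S.hc i) (S.hc j)) hw, v.mul _ _ (S.hc i) (S.hc j), hc, hc] at h2
  rw [W_of_ne (S.hx i j hij), W_of_ne hw]
  have h3 : v.o (wedge (S.x i) (S.x j)) ≤ 0 + 0 + v.o (wedge (S.x (S.φ i)) (S.x (S.φ j))) := by
    exact_mod_cast h2
  omega

end Pool.Agent.Helper55.RD
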