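import Mathlib
import Pool.Agent.Helper55.RD.Base

/-!
# The local lower bound for rational maps

`ratLB` : module RatLB.
-/

set_option autoImplicit false

open Polynomial Finset Pool.Agent.Helper33 Pool.Agent.Helper51.RatTree

namespace Pool.Agent.Helper55.RD

variable {K : Type*} [Field K]

/-- the value of the form at an affine point -/
lemma hom_eval {d : ℕ} {P : K[X]} (hP : P.natDegree ≤ d) (x : K) : hom d P x 1 = P.eval x := by
  rw [hom, Finset.Nat.sum_antidiagonal_eq_sum_range_succ_mk, eval_eq_sum_range' (Nat.lt_succ_of_le hP)]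
  simp

lemma resultant_ne_zero_of_isCoprime {P Q : K[X]} {d : ℕ} (h : IsCoprime P Q)
    (hP : P.natDegree ≤ d) (hQ : Q.natDegree ≤ d) (hmax : P.natDegree = d ∨ Q.natDegree = d)
    (hd : 1 ≤ d) : resultant P Q d d ≠ 0 := by
  have key : ∀ {P Q : K[X]}, IsCoprime P Q → Q.natDegree ≤ d → P.natDegree = d →
      resultant P Q d d ≠ 0 := by
    intro P Q h hQ hP
    obtain ⟨k, hk⟩ := Nat.exists_eq_add_of_le hQ
    have h0 : P.coeff d ≠ 0 := by
      rw [← hP, coeff_natDegree, Ne, leadingCoeff_eq_zero]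
      rintro rfl
      simp at hP
      omega
    have h1 : resultant P Q d (Q.natDegree + k) = P.coeff d ^ k * resultant P Q d Q.natDegree :=
      resultant_add_right_deg _ _ _ _ _ le_rfl
    rw [← hk] at h1
    rw [h1]
    refine mul_ne_zero (pow_ne_zero _ h0) ?_
    rw [← hP]
    exact resultant_ne_zero P Q h
  rcases hmax with h1 | h1
  · exact key h hQ h1
  · rw [resultant_comm]
    exact mul_ne_zero (pow_ne_zero _ (neg_ne_zero.2 one_ne_zero)) (key h.symm hP h1)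

/-- the local Arakelov-Green function in affine coordinates -/
noncomputable def gg (v : DV K) (d : ℕ) (P Q : K[X]) (H : K → ℝ) (x y : K) : ℝ :=
  v.o (x - y) - H x - H y + v.o (resultant P Q d d) / (d * (d - 1))

/-- the system attached to a finite invariant set of a rational function -/
noncomputable def sysOf (v : DV K) {d : ℕ} {P Q : K[X]} (hP : P.natDegree ≤ d) (hQ : Q.natDegree ≤ d)
    (hres : resultant P Q d d ≠ 0) (X : Finset K)
    (hX : ∀ x ∈ X, Q.eval x ≠ 0 ∧ P.eval x / Q.eval x ∈ X) (H : K → ℝ)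
    (hH : ∀ x ∈ X, H (P.eval x / Q.eval x) + v.o (Q.eval x) = d * H x) : Sys v d X where
  F := P
  G := Q
  hF := hP
  hG := hQ
  hR := hres
  x := fun i => (i.1, 1)
  hx := by
    intro i j hij
    have : wedge ((i.1, 1) : K × K) (j.1, 1) = i.1 - j.1 := by simp [wedge]
    rw [this]
    exact sub_ne_zero.2 fun h => hij (Subtype.ext h)
  hx0 := by
    intro i h
    exact one_ne_zero (congrArg Prod.snd h)
  φ := fun i => ⟨P.eval i.1 / Q.eval i.1, (hX i.1 i.2).2⟩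
  c := fun i => Q.eval i.1
  hc := fun i => (hX i.1 i.2).1
  hΦF := by
    intro i
    have := (hX i.1 i.2).1
    rw [hom_eval hP]
    field_simp
  hΦG := by
    intro i
    rw [hom_eval hQ]
    simp
  H := fun i => H i.1
  hH := by
    intro i
    have := hH i.1 i.2
    simp only
    linarith

lemma sysOf_g (v : DV K) {d : ℕ} {P Q : K[X]} (hP : P.natDegree ≤ d) (hQ : Q.natDegree ≤ d)
    (hres : resultant P Q d d ≠ 0) (X : Finset K)
    (hX : ∀ x ∈ X, Q.eval x ≠ 0 ∧ P.eval x / Q.eval x ∈ X) (H : K → ℝ)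
    (hH : ∀ x ∈ X, H (P.eval x / Q.eval x) + v.o (Q.eval x) = d * H x) {i j : X} (hij : i ≠ j) :
    (sysOf v hP hQ hres X hX H hH).g i j = gg v d P Q H i j := by
  unfold Sys.g gg Sys.r
  have h1 : (sysOf v hP hQ hres X hX H hH).x i = (i.1, 1) := rfl
  have h2 : (sysOf v hP hQ hres X hX H hH).x j = (j.1, 1) := rfl
  have h3 : wedge ((i.1, 1) : K × K) (j.1, 1) = i.1 - j.1 := by simp [wedge]
  have h4 : i.1 - j.1 ≠ 0 := sub_ne_zero.2 fun h => hij (Subtype.ext h)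
  rw [h1, h2, W_of_ne (by rw [h3]; exact h4), h3]
  rfl

lemma trF_one (d : ℕ) {F G : K[X]} (hF : F.natDegree ≤ d) :
    trF d ⟨1, 0, 0, 1⟩ 1 F G = F := by
  have h : pb d (⟨1, 0, 0, 1⟩ : M2 K) F = F := by
    simp only [pb, C_1, C_0, one_mul, zero_mul, add_zero, zero_add]
    rw [hom, Finset.Nat.sum_antidiagonal_eq_sum_range_succ_mk]
    conv_rhs => rw [F.as_sum_range_C_mul_X_pow' (Nat.lt_succ_of_le hF)]
    simp
  simp [trF, h]

lemma trG_one (d : ℕ) {F G : K[X]} (hG : G.natDegree ≤ d) :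
    trG d ⟨1, 0, 0, 1⟩ 1 F G = G := by
  have h : pb d (⟨1, 0, 0, 1⟩ : M2 K) G = G := by
    simp only [pb, C_1, C_0, one_mul, zero_mul, add_zero, zero_add]
    rw [hom, Finset.Nat.sum_antidiagonal_eq_sum_range_succ_mk]
    conv_rhs => rw [G.as_sum_range_C_mul_X_pow' (Nat.lt_succ_of_le hG)]
    simp
  simp [trG, h]

/-- the constant in the local lower bound -/
noncomputable def c₀ (d : ℕ) : ℝ := ep d / (d * (d - 1))

lemma c₀_pos {d : ℕ} (hd : 2 ≤ d) : 0 < c₀ d := by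
  have : (2 : ℝ) ≤ d := by exact_mod_cast hd
  exact div_pos (ep_pos hd) (mul_pos (by linarith) (by linarith))

/-- **Module RatLB.** -/
theorem ratLB {d : ℕ} (hd : 2 ≤ d) (v : DV K) {P Q : K[X]} (hP : P.natDegree ≤ d)
    (hQ : Q.natDegree ≤ d) (hres : resultant P Q d d ≠ 0) (X : Finset K)
    (hX : ∀ x ∈ X, Q.eval x ≠ 0 ∧ P.eval x / Q.eval x ∈ X) (H : K → ℝ)
    (hH : ∀ x ∈ X, H (P.eval x / Q.eval x) + v.o (Q.eval x) = d * H x) :
    ∃ (ε : ℕ) (a : K) (r : ℤ),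
      (∀ x ∈ X, ∀ y ∈ X, x ≠ y → |gg v d P Q H x y - gp v a r x y| ≤ 2 * ε) ∧
      (∀ s ⊆ X, N₀ d ≤ s.card → ∃ x ∈ s, ∃ y ∈ s, x ≠ y ∧ c₀ d * ε ≤ gg v d P Q H x y) ∧
      (ε = 0 → ∀ x ∈ X, ∀ y ∈ X, P.eval x / Q.eval x ≠ P.eval y / Q.eval y →
        gp v a r x y ≤ gp v a r (P.eval x / Q.eval x) (P.eval y / Q.eval y)) ∧
      ((∀ k, v.ge 0 (P.coeff k)) → (∀ k, v.ge 0 (Q.coeff k)) → v.o (resultant P Q d d) = 0 →
        ε = 0 ∧ a = 0 ∧ r = 0) := by
  classical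
  set S := sysOf v hP hQ hres X hX H hH with hS
  -- a good model with the lower bound
  have hmodel : ∃ (N : M2 K) (κ : K) (S₀ : Sys v d X), N.det ≠ 0 ∧ S₀.Good ∧ S₀.φ = S.φ ∧
      (∀ i j, i ≠ j → S₀.g i j = S.g i j) ∧
      (∀ i, ∃ l : K, l ≠ 0 ∧ N.app (S₀.x i) = (l * (S.x i).1, l * (S.x i).2)) ∧
      (∀ T : Finset X, N₀ d ≤ T.card → ∃ i ∈ T, ∃ j ∈ T, i ≠ j ∧ ep d * S₀.r ≤ S₀.g i j) ∧
      ((∀ k, v.ge 0 (P.coeff k)) → (∀ k, v.ge 0 (Q.coeff k)) → v.o (resultant P Q d d) = 0 →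
        S₀.r = 0 ∧ N = ⟨1, 0, 0, 1⟩) := by
    by_cases hint : (∀ k, v.ge 0 (P.coeff k)) ∧ (∀ k, v.ge 0 (Q.coeff k)) ∧
        v.o (resultant P Q d d) = 0
    · obtain ⟨i1, i2, i3⟩ := hint
      have hN : (⟨1, 0, 0, 1⟩ : M2 K).det ≠ 0 := by simp [M2.det]
      obtain ⟨S₀, hF, hG, hφ, hprim, hg, happ⟩ := S.exists_tr hd ⟨1, 0, 0, 1⟩ hN 1 one_ne_zero
      have eF : S₀.F = P := by rw [hF]; exact trF_one d hP
      have eG : S₀.G = Q := by rw [hG]; exact trG_one d hQ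
      have hr : S₀.r = 0 := by
        unfold Sys.r
        rw [eF, eG, i3]; simp
      have hgood : S₀.Good := ⟨by rw [eF]; exact i1, by rw [eG]; exact i2, hprim⟩
      refine ⟨⟨1, 0, 0, 1⟩, 1, S₀, hN, hgood, hφ, hg, happ, ?_, fun _ _ _ => ⟨hr, rfl⟩⟩
      intro T hT
      refine Sys.lower_bound hd S₀ S₀ hgood (fun _ _ _ => rfl) ?_ T hT
      intro N' κ' hN' hκ' h1 h2
      rw [eF, eG, i3]
      rw [eF, eG] at h1 h2
      have hres0 : resultant (trF d N' κ' P Q) (trG d N' κ' P Q) d d ≠ 0 := by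
        rw [resultant_tr N' κ' hP hQ]
        exact mul_ne_zero (pow_ne_zero _ (mul_ne_zero (pow_ne_zero _ hκ') hN'))
          (mul_ne_zero (pow_ne_zero _ hN') hres)
      have h3 := DV.ge_le (ge_resultant (m := d) (n := d) h1 h2) hres0
      have h4 : (0 : ℝ) ≤ v.o (resultant (trF d N' κ' P Q) (trG d N' κ' P Q) d d) := by
        simpa using h3
      exact_mod_cast h4
    · obtain ⟨N, κ, S₀, hN, hκ, hF, hG, hgood, hg, happ, hlow⟩ := S.exists_min_model hd
      obtain ⟨S₁, hF1, hG1, hφ1, hprim1, hg1, happ1⟩ := S.exists_tr hd N hN κ hκ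
      have hr : S₁.r = S₀.r := by
        unfold Sys.r
        rw [hF1, hG1, hF, hG]
      have hgood1 : S₁.Good :=
        ⟨by rw [hF1, ← hF]; exact hgood.intF, by rw [hG1, ← hG]; exact hgood.intG, hprim1⟩
      refine ⟨N, κ, S₁, hN, hgood1, hφ1, hg1, happ1, ?_, fun h1 h2 h3 =>
        absurd ⟨h1, h2, h3⟩ hint⟩
      intro T hT
      obtain ⟨i, hi, j, hj, hij, hle⟩ := hlow T hT
      refine ⟨i, hi, j, hj, hij, ?_⟩
      rw [hr, hg1 i j hij, ← hg i j hij]
      exact hle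
  obtain ⟨N, κ, S₀, hN, hgood, hφ, hg, happ, hlow, hid⟩ := hmodel
  obtain ⟨a, r, hid2, hbase⟩ := exists_base v N hN
  have hr0 := hgood.r_nonneg hd
  have hores := S₀.o_res hd
  have hd2 : (2 : ℝ) ≤ d := by exact_mod_cast hd
  have hdd : (0 : ℝ) < d * (d - 1) := mul_pos (by linarith) (by linarith)
  set ε := (v.o (resultant S₀.F S₀.G d d)).toNat with hε
  have hεr : (ε : ℝ) = d * (d - 1) * S₀.r := by
    have h1 : (0 : ℝ) ≤ v.o (resultant S₀.F S₀.G d d) := by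
      rw [hores]; exact mul_nonneg hdd.le hr0
    have h2 : (0 : ℤ) ≤ v.o (resultant S₀.F S₀.G d d) := by exact_mod_cast h1
    have h3 : ((ε : ℤ)) = v.o (resultant S₀.F S₀.G d d) := Int.toNat_of_nonneg h2
    rw [← hores, ← h3]
    simp
  have hgp : ∀ i j : X, i ≠ j → W v (S₀.x i) (S₀.x j) = gp v a r i j := by
    intro i j hij
    obtain ⟨l, hl, h1⟩ := happ i
    obtain ⟨m, hm, h2⟩ := happ j
    refine hbase i j (fun h => hij (Subtype.ext h)) _ _ (hgood.prim i) (hgood.prim j) l m hl hm ?_ ?_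
    · rw [h1]
      change (l * i.1, l * 1) = _
      rw [mul_one]
    · rw [h2]
      change (m * j.1, m * 1) = _
      rw [mul_one]
  refine ⟨ε, a, r, ?_, ?_, ?_, ?_⟩
  · intro x hx y hy hxy
    have hij : (⟨x, hx⟩ : X) ≠ ⟨y, hy⟩ := fun h => hxy (congrArg Subtype.val h)
    have h1 := hg _ _ hij
    rw [hS, sysOf_g v hP hQ hres X hX H hH hij] at h1
    have h2 : ((gp v a r x y : ℤ) : ℝ) = W v (S₀.x ⟨x, hx⟩) (S₀.x ⟨y, hy⟩) := by
      rw [hgp _ _ hij]
    rw [← h1, h2, Sys.g, hεr]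
    have k1 := hgood.H_nonneg hd ⟨x, hx⟩
    have k2 := hgood.H_nonneg hd ⟨y, hy⟩
    have k3 := hgood.H_le hd ⟨x, hx⟩
    have k4 := hgood.H_le hd ⟨y, hy⟩
    have k5 : d * S₀.r ≤ d * (d - 1) * S₀.r := by nlinarith
    have k6 : S₀.r ≤ d * S₀.r := by nlinarith
    rw [abs_le]
    constructor <;> linarith
  · intro s hs hcard
    have hcard' : N₀ d ≤ (s.subtype (fun x => x ∈ X)).card := by
      rw [card_subtype, filter_true_of_mem fun x hx => hs hx]
      exact hcard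
    obtain ⟨i, hi, j, hj, hij, hle⟩ := hlow _ hcard'
    rw [mem_subtype] at hi hj
    refine ⟨i, hi, j, hj, fun h => hij (Subtype.ext h), ?_⟩
    have h1 := hg i j hij
    rw [hS, sysOf_g v hP hQ hres X hX H hH hij] at h1
    rw [← h1, hεr]
    have hd1 : (d : ℝ) - 1 ≠ 0 := by linarith
    have hd0 : (d : ℝ) ≠ 0 := by linarith
    have : c₀ d * (d * (d - 1) * S₀.r) = ep d * S₀.r := by
      unfold c₀
      field_simp
    rw [this]
    exact hle
  · intro hε0 x hx y hy hfxy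
    have hr : S₀.r = 0 := by
      rw [hε0] at hεr
      have : (d : ℝ) * (d - 1) * S₀.r = 0 := by rw [← hεr]; simp
      exact (mul_eq_zero.1 this).resolve_left hdd.ne'
    have hxy : x ≠ y := fun h => hfxy (by rw [h])
    have hij : (⟨x, hx⟩ : X) ≠ ⟨y, hy⟩ := fun h => hxy (congrArg Subtype.val h)
    have hφij : S₀.φ ⟨x, hx⟩ ≠ S₀.φ ⟨y, hy⟩ := by
      rw [hφ]
      intro h
      exact hfxy (congrArg Subtype.val h)
    have h1 := hgood.W_le_of_good hd hr hij hφij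
    rw [hgp _ _ hij, hgp _ _ hφij, hφ] at h1
    exact h1
  · intro h1 h2 h3
    obtain ⟨hr, hN1⟩ := hid h1 h2 h3
    refine ⟨?_, hid2 hN1⟩
    rw [hr, mul_zero] at hεr
    exact_mod_cast hεr

end Pool.Agent.Helper55.RD
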