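import Mathlib
import Pool.Agent.Helper55.RD.LC

/-!
Algebraic systems of preperiodic points, and their local systems at all valuations.
-/

set_option autoImplicit false

open Polynomial Finset Pool.Agent.Helper33

namespace Pool.Agent.Helper55.RD

/-- A finite invariant family of points of a pair of forms `(F, G)` of degree `d`. -/
structure ASys (K : Type*) [Field K] (d : ℕ) (ι : Type*) where
  F : K[X]
  G : K[X]
  hF : F.natDegree ≤ d
  hG : G.natDegree ≤ d
  hR : resultant F G d d ≠ 0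
  x : ι → K × K
  hx : ∀ i j, i ≠ j → wedge (x i) (x j) ≠ 0
  hx0 : ∀ i, x i ≠ 0
  φ : ι → ι
  c : ι → K
  hc : ∀ i, c i ≠ 0
  hΦF : ∀ i, hom d F (x i).1 (x i).2 = c i * (x (φ i)).1
  hΦG : ∀ i, hom d G (x i).1 (x i).2 = c i * (x (φ i)).2

namespace ASys

variable {K : Type*} [Field K] {d : ℕ} {ι : Type*} (S : ASys K d ι)

/-- the scalar of the iterate -/
noncomputable def Ck : ℕ → ι → K
  | 0, _ => 1
  | k + 1, i => Ck k i ^ d * S.c (S.φ^[k] i)

lemma Ck_ne_zero (k : ℕ) (i : ι) : S.Ck k i ≠ 0 := by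
  induction k with
  | zero => simp [Ck]
  | succ k ih => exact mul_ne_zero (pow_ne_zero _ ih) (S.hc _)

lemma Ck_succ' (k : ℕ) (i : ι) : S.Ck (k + 1) i = S.c i ^ (d ^ k) * S.Ck k (S.φ i) := by
  induction k with
  | zero => simp [Ck]
  | succ k ih =>
    have h1 : S.Ck (k + 1 + 1) i = S.Ck (k + 1) i ^ d * S.c (S.φ^[k + 1] i) := rfl
    have h2 : S.Ck (k + 1) (S.φ i) = S.Ck k (S.φ i) ^ d * S.c (S.φ^[k] (S.φ i)) := rfl
    rw [h1, h2, ih, Function.iterate_succ_apply]
    ring

lemma exists_period [Finite ι] (φ : ι → ι) : ∃ m n : ℕ, 0 < n ∧ φ^[m + n] = φ^[m] := by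
  obtain ⟨a, b, hab, h⟩ := Finite.exists_ne_map_eq_of_infinite (fun n : ℕ => φ^[n])
  rcases lt_or_gt_of_ne hab with h1 | h1
  · refine ⟨a, b - a, by omega, ?_⟩
    rw [show a + (b - a) = b by omega]
    exact h.symm
  · refine ⟨b, a - b, by omega, ?_⟩
    rw [show b + (a - b) = a by omega]
    exact h

/-- preperiod -/
noncomputable def m [Finite ι] : ℕ := (exists_period S.φ).choose

/-- period -/
noncomputable def n [Finite ι] : ℕ := (exists_period S.φ).choose_spec.choose

variable [Finite ι]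

lemma n_pos : 0 < S.n := (exists_period S.φ).choose_spec.choose_spec.1

lemma per : S.φ^[S.m + S.n] = S.φ^[S.m] := (exists_period S.φ).choose_spec.choose_spec.2

/-- the exponent -/
noncomputable def E : ℕ := d ^ (S.m + S.n) - d ^ S.m

lemma E_pos (hd : 2 ≤ d) : 0 < S.E := by
  have := Nat.pow_lt_pow_right (show 1 < d by omega) (show S.m < S.m + S.n by have := S.n_pos; omega)
  unfold E
  omega

lemma E_add (hd : 2 ≤ d) : S.E + d ^ S.m = d ^ (S.m + S.n) := by
  have := Nat.pow_le_pow_right (show 0 < d by omega) (show S.m ≤ S.m + S.n by omega)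
  unfold E
  omega

/-- the element defining the height of a point -/
noncomputable def b (i : ι) : K := S.Ck (S.m + S.n) i / S.Ck S.m i

lemma b_ne_zero (i : ι) : S.b i ≠ 0 := div_ne_zero (S.Ck_ne_zero _ _) (S.Ck_ne_zero _ _)

lemma b_pow (hd : 2 ≤ d) (i : ι) : S.b i ^ d = S.c i ^ S.E * S.b (S.φ i) := by
  have h1 : S.Ck (S.m + S.n + 1) i = S.Ck (S.m + S.n) i ^ d * S.c (S.φ^[S.m + S.n] i) := rfl
  have h2 : S.Ck (S.m + 1) i = S.Ck S.m i ^ d * S.c (S.φ^[S.m] i) := rfl
  rw [S.per] at h1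
  have h3 := S.Ck_succ' (S.m + S.n) i
  have h4 := S.Ck_succ' S.m i
  have h5 : S.b i ^ d = S.Ck (S.m + S.n + 1) i / S.Ck (S.m + 1) i := by
    rw [h1, h2, mul_div_mul_right _ _ (S.hc _), b, div_pow]
  rw [h5, h3, h4, ← S.E_add hd, pow_add, b]
  have hc := S.hc i
  have hC := S.Ck_ne_zero S.m (S.φ i)
  field_simp

/-- the local system at a valuation -/
noncomputable def toSys (hd : 2 ≤ d) (v : DV K) : Sys v d ι where
  F := S.F
  G := S.G
  hF := S.hF
  hG := S.hG
  hR := S.hR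
  x := S.x
  hx := S.hx
  hx0 := S.hx0
  φ := S.φ
  c := S.c
  hc := S.hc
  hΦF := S.hΦF
  hΦG := S.hΦG
  H := fun i => v.o (S.b i) / S.E
  hH := by
    intro i
    have hE : (S.E : ℝ) ≠ 0 := by
      have := S.E_pos hd
      positivity
    have h1 := congrArg v.o (S.b_pow hd i)
    rw [v.o_pow _ (S.b_ne_zero i), v.mul _ _ (pow_ne_zero _ (S.hc i)) (S.b_ne_zero _),
      v.o_pow _ (S.hc i)] at h1
    have h2 : (d : ℝ) * v.o (S.b i) = S.E * v.o (S.c i) + v.o (S.b (S.φ i)) := by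
      exact_mod_cast h1
    field_simp
    linarith

/-- the element whose valuation is a multiple of the Arakelov-Green function -/
noncomputable def z (i j : ι) : K :=
  wedge (S.x i) (S.x j) ^ (S.E * (d * (d - 1))) * resultant S.F S.G d d ^ S.E /
    (S.b i * S.b j) ^ (d * (d - 1))

lemma z_ne_zero {i j : ι} (hij : i ≠ j) : S.z i j ≠ 0 :=
  div_ne_zero (mul_ne_zero (pow_ne_zero _ (S.hx i j hij)) (pow_ne_zero _ S.hR))
    (pow_ne_zero _ (mul_ne_zero (S.b_ne_zero i) (S.b_ne_zero j)))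

/-- the multiplicity -/
noncomputable def M : ℝ := S.E * (d * (d - 1))

lemma M_pos (hd : 2 ≤ d) : 0 < S.M := by
  have h1 : (2 : ℝ) ≤ d := by exact_mod_cast hd
  have h2 : (0 : ℝ) < S.E := by exact_mod_cast S.E_pos hd
  exact mul_pos h2 (mul_pos (by linarith) (by linarith))

lemma o_z (hd : 2 ≤ d) (v : DV K) {i j : ι} (hij : i ≠ j) :
    (v.o (S.z i j) : ℝ) = S.M * (S.toSys hd v).g i j := by
  have hE : (S.E : ℝ) ≠ 0 := by
    have := S.E_pos hd
    positivity
  have hd1 : (d : ℝ) - 1 ≠ 0 := by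
    have : (2 : ℝ) ≤ d := by exact_mod_cast hd
    linarith
  have hd0 : (d : ℝ) ≠ 0 := by positivity
  have hw := S.hx i j hij
  have hbb := mul_ne_zero (S.b_ne_zero i) (S.b_ne_zero j)
  have hcast : ((d - 1 : ℕ) : ℝ) = d - 1 := by
    rw [Nat.cast_sub (by omega)]; simp
  rw [z, v.o_div _ _ (mul_ne_zero (pow_ne_zero _ hw) (pow_ne_zero _ S.hR)) (pow_ne_zero _ hbb),
    v.mul _ _ (pow_ne_zero _ hw) (pow_ne_zero _ S.hR), v.o_pow _ hw, v.o_pow _ S.hR,
    v.o_pow _ hbb, v.mul _ _ (S.b_ne_zero i) (S.b_ne_zero j)]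
  have e1 : (S.toSys hd v).x = S.x := rfl
  have e2 : (S.toSys hd v).H = fun i => (v.o (S.b i) : ℝ) / S.E := rfl
  have e3 : (S.toSys hd v).F = S.F := rfl
  have e4 : (S.toSys hd v).G = S.G := rfl
  rw [Sys.g, Sys.r, e1, e2, e3, e4, W_of_ne hw, M]
  push_cast
  rw [hcast]
  field_simp
  ring

end ASys

section map

variable {K L : Type*} [Field K] [Field L] {d : ℕ} {ι : Type*}

lemma map_hom' (f : K →+* L) (n : ℕ) (p : K[X]) (a b : K) :
    f (hom n p a b) = hom n (p.map f) (f a) (f b) := by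
  simp [hom, map_sum]

lemma map_wedge (f : K →+* L) (x y : K × K) :
    wedge (f x.1, f x.2) (f y.1, f y.2) = f (wedge x y) := by
  simp [wedge]

/-- base change of an algebraic system -/
noncomputable def ASys.map (f : K →+* L) (S : ASys K d ι) : ASys L d ι where
  F := S.F.map f
  G := S.G.map f
  hF := natDegree_map_le.trans S.hF
  hG := natDegree_map_le.trans S.hG
  hR := by
    rw [resultant_map_map]
    exact (map_ne_zero f).2 S.hR
  x := fun i => (f (S.x i).1, f (S.x i).2)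
  hx := by
    intro i j hij
    rw [map_wedge]
    exact (map_ne_zero f).2 (S.hx i j hij)
  hx0 := by
    intro i h
    apply S.hx0 i
    have h1 := congrArg Prod.fst h
    have h2 := congrArg Prod.snd h
    exact Prod.ext ((map_eq_zero f).1 h1) ((map_eq_zero f).1 h2)
  φ := S.φ
  c := fun i => f (S.c i)
  hc := fun i => (map_ne_zero f).2 (S.hc i)
  hΦF := by
    intro i
    rw [← map_hom', S.hΦF, map_mul]
  hΦG := by
    intro i
    rw [← map_hom', S.hΦG, map_mul]

variable [Finite ι]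

lemma ASys.map_Ck (f : K →+* L) (S : ASys K d ι) (k : ℕ) (i : ι) :
    (S.map f).Ck k i = f (S.Ck k i) := by
  induction k with
  | zero => simp [Ck]
  | succ k ih =>
    have h1 : (S.map f).Ck (k + 1) i = (S.map f).Ck k i ^ d * f (S.c (S.φ^[k] i)) := rfl
    have h2 : S.Ck (k + 1) i = S.Ck k i ^ d * S.c (S.φ^[k] i) := rfl
    rw [h1, h2, ih, map_mul, map_pow]

lemma ASys.map_b (f : K →+* L) (S : ASys K d ι) (i : ι) : (S.map f).b i = f (S.b i) := by
  have h1 : (S.map f).b i = (S.map f).Ck (S.m + S.n) i / (S.map f).Ck S.m i := rfl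
  rw [h1, map_Ck, map_Ck, b, map_div₀]

lemma ASys.map_z (f : K →+* L) (S : ASys K d ι) (i j : ι) : (S.map f).z i j = f (S.z i j) := by
  have h1 : (S.map f).z i j =
      wedge (f (S.x i).1, f (S.x i).2) (f (S.x j).1, f (S.x j).2) ^ (S.E * (d * (d - 1))) *
        resultant (S.F.map f) (S.G.map f) d d ^ S.E /
      ((S.map f).b i * (S.map f).b j) ^ (d * (d - 1)) := rfl
  rw [h1, map_wedge, resultant_map_map, map_b, map_b, z, map_div₀, map_mul, map_pow, map_pow,
    map_pow, map_mul]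

lemma ASys.map_M (f : K →+* L) (S : ASys K d ι) : (S.map f).M = S.M := rfl

end map

end Pool.Agent.Helper55.RD
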